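import Pool.Agent.Helper28.TM.Lem
import Pool.Agent.Helper28.TL.Clu

set_option autoImplicit false

namespace Pool.Agent.Helper28.TM

open Polynomial Finset
open Pool.Agent.Helper28.TC (WW qc qc_sum ringCharK LP up)
open Pool.Agent.Helper28.TC.N (Idx)
open Pool.Agent.Helper28.TL (kap LX LX_kap LX_kap_ne rdM Itp itp_one itp_two sum_qc_single)

section Two

variable {R : Type} [CommRing R] {k d : ℕ} {g : Fin k → ℕ} {M H W p q : ℕ} [NeZero M]
  [Fact p.Prime] [Fact q.Prime] (b : Fin d → R) (c : Fin d → ℤ) (hc : ∑ l, (c l : R) * b l = 1)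
  (hW : ∑ l, |c l| ≤ (W : ℤ))
  (φ : R →+* ZMod p) (φ' : R →+* ZMod q) (h : p ∣ M) (h' : q ∣ M)
  (K₁ K₂ : Type) [Field K₁] [Fintype K₁] [Algebra (ZMod p) K₁] [Field K₂] [Fintype K₂]
  [Algebra (ZMod q) K₂] {Ω₁ Ω₂ : Type} [Fintype Ω₁] [DecidableEq Ω₁] [Fintype Ω₂]
  [DecidableEq Ω₂]

include hc hW in
theorem two_clusters (hpq : p ≠ q) (hp : p ≠ 2) (hq : q ≠ 2) (i : Fin k) {X₁ : Ω₁ → K₁}
    {X₂ : Ω₂ → K₂} (h₁ : Itp p X₁) (h₂ : Itp q X₂) {κ N : ℕ} {𝒢 : Finset ℤ[X]}
    (ha : Adm (2 * g i + 2) M (H * W) κ 𝒢 N)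
    (hN : Fintype.card K₁ ^ Fintype.card Ω₁ * Fintype.card K₂ ^ Fintype.card Ω₂ ≤ N)
    (F : (Idx g × Fin d → ZMod M) → ℝ) (hF : ∀ a l P, F (a + kap i l P) = F a)
    (hne : ∑ a, WW H a * ((∏ s, qc K₁ (LX b φ h K₁ i (X₁ s) a)) *
      (∏ s, qc K₂ (LX b φ' h' K₂ i (X₂ s) a)) * F a) ≠ 0) :
    ∃ G ∈ 𝒢, (∀ s, aeval (X₁ s) G = 0) ∧ ∀ s, aeval (X₂ s) G = 0 := by
  classical
  have e1 : ∀ (P : ℤ[X]) s, (aeval (X₁, X₂) P : (Ω₁ → K₁) × (Ω₂ → K₂)).1 s = aeval (X₁ s) P := by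
    intro P s
    exact (aeval_algHom_apply ((Pi.evalRingHom (fun _ : Ω₁ => K₁) s).comp
      (RingHom.fst (Ω₁ → K₁) (Ω₂ → K₂))).toIntAlgHom (X₁, X₂) P).symm
  have e2 : ∀ (P : ℤ[X]) s, (aeval (X₁, X₂) P : (Ω₁ → K₁) × (Ω₂ → K₂)).2 s = aeval (X₂ s) P := by
    intro P s
    exact (aeval_algHom_apply ((Pi.evalRingHom (fun _ : Ω₂ => K₂) s).comp
      (RingHom.snd (Ω₁ → K₁) (Ω₂ → K₂))).toIntAlgHom (X₁, X₂) P).symm
  obtain ⟨G, hG1, hG4⟩ := lemB (M := M) (H := H) (W := W) (𝓡 := (Ω₁ → K₁) × (Ω₂ → K₂)) i (X₁, X₂)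
    (fun l => (fun _ => algebraMap (ZMod p) K₁ (φ (b l)), fun _ => algebraMap (ZMod q) K₂ (φ' (b l))))
    c (by
      have h3 := congrArg φ hc
      have h4 := congrArg φ' hc
      rw [map_sum, map_one] at h3 h4
      apply Prod.ext
      · funext s
        rw [Prod.fst_sum, Finset.sum_apply]
        have h5 := congrArg (algebraMap (ZMod p) K₁) h3
        rw [map_sum, map_one] at h5
        refine Eq.trans ?_ h5
        refine Finset.sum_congr rfl fun l _ => ?_
        rw [map_mul, map_mul, map_intCast, map_intCast]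
        rfl
      · funext s
        rw [Prod.snd_sum, Finset.sum_apply]
        have h5 := congrArg (algebraMap (ZMod q) K₂) h4
        rw [map_sum, map_one] at h5
        refine Eq.trans ?_ h5
        refine Finset.sum_congr rfl fun l _ => ?_
        rw [map_mul, map_mul, map_intCast, map_intCast]
        rfl)
    hW
    { toFun := fun a => (fun s => LX b φ h K₁ i (X₁ s) a, fun s => LX b φ' h' K₂ i (X₂ s) a)
      map_zero' := by
        apply Prod.ext
        · funext s; simp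
        · funext s; simp
      map_add' := by
        intro a a'
        apply Prod.ext
        · funext s; simp
        · funext s; simp }
    (by
      intro l P hP
      apply Prod.ext
      · funext s
        change LX b φ h K₁ i (X₁ s) (kap i l P) = algebraMap (ZMod p) K₁ (φ (b l)) *
          (aeval (X₁, X₂) P : (Ω₁ → K₁) × (Ω₂ → K₂)).1 s
        rw [LX_kap b φ h K₁ i (X₁ s) l hP, e1]
      · funext s
        change LX b φ' h' K₂ i (X₂ s) (kap i l P) = algebraMap (ZMod q) K₂ (φ' (b l)) *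
          (aeval (X₁, X₂) P : (Ω₁ → K₁) × (Ω₂ → K₂)).2 s
        rw [LX_kap b φ' h' K₂ i (X₂ s) l hP, e2])
    (fun r => (∏ s, qc K₁ (r.1 s)) * ∏ s, qc K₂ (r.2 s)) F hF ha
    (by rw [Fintype.card_prod, Fintype.card_fun, Fintype.card_fun]; exact hN)
    (by
      rintro ⟨r₁, r₂⟩
      obtain ⟨P, hP1, hP2, hP3⟩ := itp_two hpq h₁ h₂ r₁ r₂
      refine ⟨P, hP1, Prod.ext ?_ ?_⟩
      · funext s; exact (e1 P s).trans (hP2 s)
      · funext s; exact (e2 P s).trans (hP3 s))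
    hne
  refine ⟨G, hG1, ?_, ?_⟩
  · intro s
    by_contra hs
    obtain ⟨x, hx1, hx2⟩ := hG4 (univ.image fun c : K₁ => ((Pi.single s c : Ω₁ → K₁), (0 : Ω₂ → K₂)))
      ((Finset.univ_nonempty (α := K₁)).image _) (by
        intro r
        rw [Finset.sum_image (by
          intro c _ c' _ hcc
          exact Pi.single_injective s (Prod.ext_iff.1 hcc).1)]
        change ∑ c : K₁, (∏ t, qc K₁ (r.1 t + (Pi.single s c : Ω₁ → K₁) t)) *
          (∏ t, qc K₂ (r.2 t + (0 : Ω₂ → K₂) t)) = 0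
        rw [← Finset.sum_mul, sum_qc_single (ringCharK (p := p) K₁ hp), zero_mul])
    apply hx2
    obtain ⟨c, _, rfl⟩ := Finset.mem_image.1 hx1
    refine ⟨(Pi.single s (c / aeval (X₁ s) G), 0), ?_⟩
    apply Prod.ext
    · funext t
      change (Pi.single s c : Ω₁ → K₁) t = (aeval (X₁, X₂) G : (Ω₁ → K₁) × (Ω₂ → K₂)).1 t *
        (Pi.single s (c / aeval (X₁ s) G) : Ω₁ → K₁) t
      rw [e1]
      by_cases hts : t = s
      · rw [hts, Pi.single_eq_same, Pi.single_eq_same, mul_div_cancel₀ _ hs]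
      · rw [Pi.single_eq_of_ne hts, Pi.single_eq_of_ne hts, mul_zero]
    · funext t
      change (0 : K₂) = _ * (0 : K₂)
      rw [mul_zero]
  · intro s
    by_contra hs
    obtain ⟨x, hx1, hx2⟩ := hG4 (univ.image fun c : K₂ => ((0 : Ω₁ → K₁), (Pi.single s c : Ω₂ → K₂)))
      ((Finset.univ_nonempty (α := K₂)).image _) (by
        intro r
        rw [Finset.sum_image (by
          intro c _ c' _ hcc
          exact Pi.single_injective s (Prod.ext_iff.1 hcc).2)]
        change ∑ c : K₂, (∏ t, qc K₁ (r.1 t + (0 : Ω₁ → K₁) t)) *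
          (∏ t, qc K₂ (r.2 t + (Pi.single s c : Ω₂ → K₂) t)) = 0
        rw [← Finset.mul_sum, sum_qc_single (ringCharK (p := q) K₂ hq), mul_zero])
    apply hx2
    obtain ⟨c, _, rfl⟩ := Finset.mem_image.1 hx1
    refine ⟨(0, Pi.single s (c / aeval (X₂ s) G)), ?_⟩
    apply Prod.ext
    · funext t
      change (0 : K₁) = _ * (0 : K₁)
      rw [mul_zero]
    · funext t
      change (Pi.single s c : Ω₂ → K₂) t = (aeval (X₁, X₂) G : (Ω₁ → K₁) × (Ω₂ → K₂)).2 t *
        (Pi.single s (c / aeval (X₂ s) G) : Ω₂ → K₂) t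
      rw [e2]
      by_cases hts : t = s
      · rw [hts, Pi.single_eq_same, Pi.single_eq_same, mul_div_cancel₀ _ hs]
      · rw [Pi.single_eq_of_ne hts, Pi.single_eq_of_ne hts, mul_zero]

end Two

section One

variable {R : Type} [CommRing R] {k d : ℕ} {g : Fin k → ℕ} {M H W p : ℕ} [NeZero M]
  [Fact p.Prime] (b : Fin d → R) (c : Fin d → ℤ) (hc : ∑ l, (c l : R) * b l = 1)
  (hW : ∑ l, |c l| ≤ (W : ℤ))
  (φ : R →+* ZMod p) (h : p ∣ M) (K : Type) [Field K] [Fintype K] [Algebra (ZMod p) K]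
  {Ω : Type} [Fintype Ω] [DecidableEq Ω]

include hc hW in
theorem one_cluster (hp : p ≠ 2) (i : Fin k) {X : Ω → K} (h₁ : Itp p X) {κ N : ℕ} {𝒢 : Finset ℤ[X]}
    (ha : Adm (2 * g i + 2) M (H * W) κ 𝒢 N) (hN : Fintype.card K ^ Fintype.card Ω ≤ N)
    {n : ℕ} (t : Fin n → Ω)
    (hne : ∑ a : Idx g × Fin d → ZMod M, WW H a * (∏ m, qc K (LX b φ h K i (X (t m)) a)) ≠ 0) :
    ∃ G ∈ 𝒢, ∀ m₀, (∀ m, m ≠ m₀ → t m ≠ t m₀) → aeval (X (t m₀)) G = 0 := by
  classical
  have e1 : ∀ (P : ℤ[X]) s, (aeval X P : Ω → K) s = aeval (X s) P := by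
    intro P s
    exact (aeval_algHom_apply (Pi.evalRingHom (fun _ : Ω => K) s).toIntAlgHom X P).symm
  obtain ⟨G, hG1, hG4⟩ := lemB (M := M) (H := H) (W := W) (𝓡 := Ω → K) i X
    (fun l => fun _ => algebraMap (ZMod p) K (φ (b l)))
    c (by
      have h3 := congrArg φ hc
      rw [map_sum, map_one] at h3
      funext s
      rw [Finset.sum_apply]
      have h5 := congrArg (algebraMap (ZMod p) K) h3
      rw [map_sum, map_one] at h5
      refine Eq.trans ?_ h5
      refine Finset.sum_congr rfl fun l _ => ?_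
      rw [map_mul, map_mul, map_intCast, map_intCast]
      rfl)
    hW
    { toFun := fun a => fun s => LX b φ h K i (X s) a
      map_zero' := by funext s; simp
      map_add' := by intro a a'; funext s; simp }
    (by
      intro l P hP
      funext s
      change LX b φ h K i (X s) (kap i l P) = algebraMap (ZMod p) K (φ (b l)) *
        (aeval X P : Ω → K) s
      rw [LX_kap b φ h K i (X s) l hP, e1])
    (fun r => ∏ m, qc K (r (t m))) (fun _ => 1) (fun _ _ _ => rfl) ha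
    (by rw [Fintype.card_fun]; exact hN)
    (by
      intro r
      obtain ⟨P, hP1, hP2⟩ := itp_one h₁ r
      refine ⟨P, hP1, ?_⟩
      funext s; exact (e1 P s).trans (hP2 s))
    (by simpa using hne)
  refine ⟨G, hG1, ?_⟩
  intro m₀ hm₀
  by_contra hs
  obtain ⟨x, hx1, hx2⟩ := hG4 (univ.image fun c : K => (Pi.single (t m₀) c : Ω → K))
    ((Finset.univ_nonempty (α := K)).image _) (by
      intro r
      rw [Finset.sum_image (by
        intro c _ c' _ hcc
        exact Pi.single_injective (t m₀) hcc)]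
      change ∑ c : K, ∏ m, qc K (r (t m) + (Pi.single (t m₀) c : Ω → K) (t m)) = 0
      have h1 : ∀ c : K, ∏ m, qc K (r (t m) + (Pi.single (t m₀) c : Ω → K) (t m)) =
          qc K (r (t m₀) + c) * ∏ m ∈ univ.erase m₀, qc K (r (t m)) := by
        intro c
        rw [← Finset.mul_prod_erase univ _ (Finset.mem_univ m₀), Pi.single_eq_same]
        congr 1
        refine Finset.prod_congr rfl fun m hm => ?_
        rw [Pi.single_eq_of_ne (hm₀ m (Finset.ne_of_mem_erase hm)), add_zero]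
      rw [Finset.sum_congr rfl fun c _ => h1 c, ← Finset.sum_mul]
      have h2 : ∑ c : K, qc K (r (t m₀) + c) = ∑ c, qc K c :=
        Equiv.sum_comp (Equiv.addLeft (r (t m₀))) (qc K)
      rw [h2, qc_sum (ringCharK (p := p) K hp), zero_mul])
  apply hx2
  obtain ⟨c, _, rfl⟩ := Finset.mem_image.1 hx1
  refine ⟨Pi.single (t m₀) (c / aeval (X (t m₀)) G), ?_⟩
  funext s
  change (Pi.single (t m₀) c : Ω → K) s = (aeval X G : Ω → K) s *
    (Pi.single (t m₀) (c / aeval (X (t m₀)) G) : Ω → K) s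
  rw [e1]
  by_cases hts : s = t m₀
  · rw [hts, Pi.single_eq_same, Pi.single_eq_same, mul_div_cancel₀ _ hs]
  · rw [Pi.single_eq_of_ne hts, Pi.single_eq_of_ne hts, mul_zero]

end One

end Pool.Agent.Helper28.TM
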