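import Pool.Agent.Helper28.TM.Clu
import Pool.Agent.Helper28.TL.Cnt
import Pool.Agent.Helper28.TL.Prs

set_option autoImplicit false

namespace Pool.Agent.Helper28.TM

open Polynomial Finset
open Pool.Agent.Helper28.TC (WW WW_nonneg qc qc_sum ringCharK LP up sep sepK surjK evH ev)
open Pool.Agent.Helper28.TC.N (Idx)
open Pool.Agent.LL (card_rts rts mem_rts)

section Count

/-- The polynomials of the finite set. -/
def Sml (𝒢 : Finset ℤ[X]) (G : ℤ[X]) : Prop := G ∈ 𝒢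

open Classical in
/-- The number of the tuples which are related to one of the polynomials. -/
lemma card_exists {Z : Type} (S : Finset Z) (P : ℤ[X] → Z → Prop) {𝒢 : Finset ℤ[X]} {n : ℕ}
    (hP : ∀ G, Sml 𝒢 G → ∃ T : Finset Z, T.card ≤ n ∧ ∀ z, P G z → z ∈ T) :
    (S.filter fun z => ∃ G, Sml 𝒢 G ∧ P G z).card ≤ 𝒢.card * n := by
  choose! T hT1 hT2 using hP
  have hsub : (S.filter fun z => ∃ G, Sml 𝒢 G ∧ P G z) ⊆ 𝒢.biUnion fun G => T G := by
    intro z hz
    obtain ⟨hz1, G, hG, hPG⟩ := Finset.mem_filter.1 hz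
    rw [Finset.mem_biUnion]
    exact ⟨G, hG, hT2 G hG z hPG⟩
  refine (Finset.card_le_card hsub).trans (Finset.card_biUnion_le.trans ?_)
  refine (Finset.sum_le_sum fun G hG => hT1 G hG).trans ?_
  rw [Finset.sum_const, smul_eq_mul]

/-- A primitive polynomial of degree less than `κ` has at most `κ` roots in a finite field. -/
lemma card_root {κ : ℕ} {K : Type} [Field K] [Fintype K] {G : ℤ[X]}
    [DecidablePred fun x : K => aeval x G = 0] (hG : G.IsPrimitive ∧ G.natDegree < κ) :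
    ((univ : Finset K).filter fun x => aeval x G = 0).card ≤ κ := by
  refine le_trans (Finset.card_le_card ?_) (card_rts hG.1 hG.2 K)
  intro x hx
  exact mem_rts.2 (Finset.mem_filter.1 hx).2

lemma cG_le {𝒢 : Finset ℤ[X]} {C N : ℕ} (hN : 𝒢.card ^ 4 ≤ C ^ 4 * N) :
    (𝒢.card : ℝ) ≤ C * Real.sqrt (Real.sqrt N) := by
  have h1 : ((𝒢.card : ℝ)) ^ 4 ≤ (C * Real.sqrt (Real.sqrt N)) ^ 4 := by
    have h2 : ((𝒢.card : ℝ)) ^ 4 ≤ (C : ℝ) ^ 4 * N := by exact_mod_cast hN
    have h3 : Real.sqrt (Real.sqrt (N : ℝ)) ^ 4 = N := by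
      have e1 : Real.sqrt (Real.sqrt (N : ℝ)) ^ 4 = (Real.sqrt (Real.sqrt (N : ℝ)) ^ 2) ^ 2 := by
        ring
      rw [e1, Real.sq_sqrt (Real.sqrt_nonneg _), Real.sq_sqrt (Nat.cast_nonneg _)]
    rw [mul_pow, h3]
    exact h2
  exact le_of_pow_le_pow_left₀ (by norm_num) (by positivity) h1

end Count

end Pool.Agent.Helper28.TM
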