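import Pool.Agent.Helper28.TM.VV
import Pool.Agent.Helper28.TL.Hom

set_option autoImplicit false

namespace Pool.Agent.Helper28.TM

open Polynomial Finset
open Pool.Agent.Helper28.TC (WW WW_nonneg qc qc_abs qc_sq qc_zero ringCharK LP blk pl up up_cast
  cc cc_abs WF XK mem_XK Bs XB rB rB_abs rB_none rB_inl rB_inr GG BA Cb Cb_nonneg SF ZF
  natDegree_pl cardK bx AA AA_nonneg)
open Pool.Agent.Helper28.TC.N (Idx f1 rd rd_eq redc hom_finite card_hom_le tt t1 t1_eq)
open Pool.Agent.Helper28.TL (rdM rd_up ZZ ZZ_nonneg SA v1 er Ce Ce_nonneg HT HT_eq HT_mod VT ET YT Mom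
  mom_of box_mean er_nonneg SA_two)

section Moments

variable {R : Type} [CommRing R] {k d : ℕ} {g : Fin k → ℕ} {M H W K B : ℕ} [NeZero M]
  (b : Module.Basis (Fin d) ℤ R) {c : Fin d → ℤ} (hc : ∑ l, (c l : R) * b l = 1)
  (hW : ∑ l, |c l| ≤ (W : ℤ)) {κ C : Fin k → ℕ}
  (hA : ∀ i N, 1 ≤ N → N ≤ K ^ 4 → ∃ 𝒢 : Finset ℤ[X], 𝒢.card ^ 4 ≤ C i ^ 4 * N ∧
    Adm (2 * g i + 2) M (H * W) (κ i) 𝒢 N)
  (hM : M = 8 * B * H) (hB : 1 ≤ B) (hH : 1 ≤ H) (hdvd : ∀ p, p.Prime → p ≤ K → p ∣ M)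

include hc hW hA hM hB hH hdvd in
lemma mom_VT {w : ∀ p : ℕ, (R →+* ZMod p) → ℝ} (hw : ∀ p φ, |w p φ| ≤ 1) (β : Bs k) :
    Mom (VT (g := g) b w β) K B (d * (2 * SC κ C)) ((d : ℝ) ^ 2 * (88 * SC κ C)) := by
  have hSC := one_le_SC κ C
  have hd0 : (0 : ℝ) ≤ d := Nat.cast_nonneg d
  apply mom_of (M := M) (H := H) _ (by positivity) (by positivity) hM hB hH
  · intro p hp hpK a
    exact HT_mod b _ hp (hdvd p hp hpK) a
  · intro p hp hpK
    have hpf : Fact p.Prime := ⟨hp⟩
    have hfin : Finite (R →+* ZMod p) := hom_finite b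
    have := Fintype.ofFinite (R →+* ZMod p)
    have hcard : (Fintype.card (R →+* ZMod p) : ℝ) ≤ d := by exact_mod_cast card_hom_le b
    have h := hdvd p hp hpK
    have e0 : ∀ a : Idx g × Fin d → ZMod M, VT (g := g) b w β p (up a) =
        ∑ φ : R →+* ZMod p, w p φ * v1 β p (rdM b φ h a) := by
      intro a
      unfold VT
      rw [HT_eq]
      refine Finset.sum_congr rfl fun φ _ => ?_
      rw [rd_up b φ h]
    have h1 : ∀ a : Idx g × Fin d → ZMod M,
        WW H a * VT (g := g) b w β p (up a) ^ 2 ≤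
        d * ∑ φ : R →+* ZMod p, WW H a * v1 β p (rdM b φ h a) ^ 2 := by
      intro a
      rw [e0, ← Finset.mul_sum, mul_left_comm]
      apply mul_le_mul_of_nonneg_left _ (WW_nonneg H a)
      refine (sq_sum_le_card_mul_sum_sq).trans ?_
      rw [Finset.card_univ]
      apply mul_le_mul hcard _ (Finset.sum_nonneg fun _ _ => sq_nonneg _) (Nat.cast_nonneg _)
      refine Finset.sum_le_sum fun φ _ => ?_
      rw [mul_pow]
      have h2 : w p φ ^ 2 ≤ 1 := by
        rw [← sq_abs]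
        exact pow_le_one₀ (abs_nonneg _) (hw p φ)
      nlinarith [sq_nonneg (v1 β p (rdM b φ h a))]
    refine (Finset.sum_le_sum fun a _ => h1 a).trans ?_
    rw [← Finset.mul_sum, Finset.sum_comm]
    have hZ : 0 ≤ ZZ (Idx g × Fin d) M H := ZZ_nonneg
    calc (d : ℝ) * _ ≤ d * ∑ _φ : R →+* ZMod p, ZZ (Idx g × Fin d) M H * (88 * SC κ C) :=
          mul_le_mul_of_nonneg_left
            (Finset.sum_le_sum fun φ _ => v1_sq (H := H) b c hc hW φ h hA hpK β) hd0
      _ = d * (Fintype.card (R →+* ZMod p) * (ZZ (Idx g × Fin d) M H * (88 * SC κ C))) := by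
          rw [Finset.sum_const, Finset.card_univ, nsmul_eq_mul]
      _ ≤ d * (d * (ZZ (Idx g × Fin d) M H * (88 * SC κ C))) := by
          apply mul_le_mul_of_nonneg_left _ hd0
          exact mul_le_mul_of_nonneg_right hcard (by positivity)
      _ = _ := by ring
  · intro p q hp hq hpK hqK hpq
    have hpf : Fact p.Prime := ⟨hp⟩
    have hqf : Fact q.Prime := ⟨hq⟩
    have hp0 : (0 : ℝ) < p := by exact_mod_cast hp.pos
    have hq0 : (0 : ℝ) < q := by exact_mod_cast hq.pos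
    have hfin : Finite (R →+* ZMod p) := hom_finite b
    have := Fintype.ofFinite (R →+* ZMod p)
    have hfin' : Finite (R →+* ZMod q) := hom_finite b
    have := Fintype.ofFinite (R →+* ZMod q)
    have hcard : (Fintype.card (R →+* ZMod p) : ℝ) ≤ d := by exact_mod_cast card_hom_le b
    have hcard' : (Fintype.card (R →+* ZMod q) : ℝ) ≤ d := by exact_mod_cast card_hom_le b
    have h := hdvd p hp hpK
    have h' := hdvd q hq hqK
    have hZ : 0 ≤ ZZ (Idx g × Fin d) M H := ZZ_nonneg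
    obtain ⟨E, hE⟩ : ∃ E : ℝ, E = ZZ (Idx g × Fin d) M H *
        ((2 * SC κ C / Real.sqrt p) * (2 * SC κ C / Real.sqrt q)) := ⟨_, rfl⟩
    have hE0 : 0 ≤ E := by rw [hE]; positivity
    have e0 : ∀ a : Idx g × Fin d → ZMod M, WW H a *
        (VT (g := g) b w β p (up a) * VT (g := g) b w β q (up a)) =
        ∑ φ : R →+* ZMod p, ∑ φ' : R →+* ZMod q, w p φ * w q φ' *
          (WW H a * (v1 β p (rdM b φ h a) * v1 β q (rdM b φ' h' a))) := by
      intro a
      unfold VT
      rw [HT_eq, HT_eq, Finset.sum_mul_sum, Finset.mul_sum]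
      refine Finset.sum_congr rfl fun φ _ => ?_
      rw [Finset.mul_sum]
      refine Finset.sum_congr rfl fun φ' _ => ?_
      rw [rd_up b φ h, rd_up b φ' h']
      ring
    have e1 : ∑ a : Idx g × Fin d → ZMod M, WW H a *
        (VT (g := g) b w β p (up a) * VT (g := g) b w β q (up a)) =
        ∑ φ : R →+* ZMod p, ∑ φ' : R →+* ZMod q, w p φ * w q φ' *
          ∑ a : Idx g × Fin d → ZMod M,
            WW H a * (v1 β p (rdM b φ h a) * v1 β q (rdM b φ' h' a)) := by
      rw [Finset.sum_congr rfl fun a _ => e0 a, Finset.sum_comm]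
      refine Finset.sum_congr rfl fun φ _ => ?_
      rw [Finset.sum_comm]
      refine Finset.sum_congr rfl fun φ' _ => ?_
      rw [Finset.mul_sum]
    rw [e1]
    have h3 : ∀ φ : R →+* ZMod p, ∀ φ' : R →+* ZMod q, |w p φ * w q φ' *
          ∑ a : Idx g × Fin d → ZMod M,
            WW H a * (v1 β p (rdM b φ h a) * v1 β q (rdM b φ' h' a))| ≤ E := by
      intro φ φ'
      rw [abs_mul, abs_mul]
      have h4 := v1_pair (H := H) b c hc hW φ φ' h h' hA hpq hpK hqK β
      rw [← hE] at h4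
      have h5 : |w p φ| * |w q φ'| ≤ 1 :=
        mul_le_one₀ (hw p φ) (abs_nonneg _) (hw q φ')
      calc _ ≤ 1 * E := mul_le_mul h5 h4 (abs_nonneg _) zero_le_one
        _ = E := one_mul _
    calc _ ≤ ∑ _φ : R →+* ZMod p, ∑ _φ' : R →+* ZMod q, E := by
          refine (Finset.abs_sum_le_sum_abs _ _).trans (Finset.sum_le_sum fun φ _ => ?_)
          exact (Finset.abs_sum_le_sum_abs _ _).trans (Finset.sum_le_sum fun φ' _ => h3 φ φ')
      _ = Fintype.card (R →+* ZMod p) * (Fintype.card (R →+* ZMod q) * E) := by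
          rw [Finset.sum_const, Finset.sum_const, Finset.card_univ, Finset.card_univ,
            nsmul_eq_mul, nsmul_eq_mul]
      _ ≤ d * (d * E) := by
          apply mul_le_mul hcard _ (by positivity) hd0
          exact mul_le_mul_of_nonneg_right hcard' hE0
      _ = _ := by
          rw [hE]
          ring

include hc hW hA hM hB hH hdvd in
lemma mean_YT (β : Bs k) (p : ℕ) (hp : p.Prime) (hpK : p ≤ K) :
    ∑ a ∈ bx (Idx g × Fin d) B, YT (g := g) b β p a ≤
      AA (Idx g × Fin d) B * (d * (88 * SC κ C)) := by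
  have hSC := one_le_SC κ C
  have hd0 : (0 : ℝ) ≤ d := Nat.cast_nonneg d
  have hpf : Fact p.Prime := ⟨hp⟩
  have hfin : Finite (R →+* ZMod p) := hom_finite b
  have := Fintype.ofFinite (R →+* ZMod p)
  have hcard : (Fintype.card (R →+* ZMod p) : ℝ) ≤ d := by exact_mod_cast card_hom_le b
  have h := hdvd p hp hpK
  have hZ : 0 ≤ ZZ (Idx g × Fin d) M H := ZZ_nonneg
  have h1 : ∑ a ∈ bx (Idx g × Fin d) B, YT (g := g) b β p a = ∑ a ∈ bx (Idx g × Fin d) B,
      YT (g := g) b β p (up fun m => ((a m : ℤ) : ZMod M)) := by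
    refine Finset.sum_congr rfl fun a _ => ?_
    exact (HT_mod b _ hp h a).symm
  rw [h1]
  have e0 : ∀ a : Idx g × Fin d → ZMod M, YT (g := g) b β p (up a) =
      ∑ φ : R →+* ZMod p, v1 β p (rdM b φ h a) ^ 2 := by
    intro a
    unfold YT
    rw [HT_eq]
    refine Finset.sum_congr rfl fun φ _ => ?_
    rw [rd_up b φ h]
  refine box_mean hM hB hH (fun a => YT (g := g) b β p (up a)) ?_ (by positivity) ?_
  · intro a
    change 0 ≤ YT (g := g) b β p (up a)
    rw [e0]
    exact Finset.sum_nonneg fun _ _ => sq_nonneg _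
  · have e1 : ∀ a : Idx g × Fin d → ZMod M, WW H a * YT (g := g) b β p (up a) =
        ∑ φ : R →+* ZMod p, WW H a * v1 β p (rdM b φ h a) ^ 2 := by
      intro a
      rw [e0, Finset.mul_sum]
    rw [Finset.sum_congr rfl fun a _ => e1 a, Finset.sum_comm]
    calc _ ≤ ∑ _φ : R →+* ZMod p, ZZ (Idx g × Fin d) M H * (88 * SC κ C) :=
            Finset.sum_le_sum fun φ _ => v1_sq (H := H) b c hc hW φ h hA hpK β
      _ = Fintype.card (R →+* ZMod p) * (ZZ (Idx g × Fin d) M H * (88 * SC κ C)) := by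
          rw [Finset.sum_const, Finset.card_univ, nsmul_eq_mul]
      _ ≤ d * (ZZ (Idx g × Fin d) M H * (88 * SC κ C)) :=
          mul_le_mul_of_nonneg_right hcard (by positivity)
      _ = _ := by ring

include hc hW hA in
lemma er_mean {p : ℕ} [hp : Fact p.Prime]
    (hpK : p ≤ K) (h : p ∣ M) (φ : R →+* ZMod p) :
    ∑ a : Idx g × Fin d → ZMod M, WW H a * er p (rdM b φ h a) ≤
      ZZ (Idx g × Fin d) M H * ((1 + k * (7 * SC κ C)) / Real.sqrt p) := by
  have hSC := one_le_SC κ C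
  have hp0 : (0 : ℝ) < p := by exact_mod_cast hp.out.pos
  have hp1 : (1 : ℝ) ≤ p := by exact_mod_cast hp.out.one_le
  have hs : 0 < Real.sqrt p := Real.sqrt_pos.2 hp0
  have hs1 : 1 ≤ Real.sqrt p := Real.one_le_sqrt.2 hp1
  have hss : Real.sqrt p * Real.sqrt p = p := Real.mul_self_sqrt hp0.le
  have hZ : 0 ≤ ZZ (Idx g × Fin d) M H := ZZ_nonneg
  have h1 : ∀ i, ∑ a : Idx g × Fin d → ZMod M, WW H a * |SA i (rdM b φ h a)| ≤
      ZZ (Idx g × Fin d) M H * ((7 * SC κ C) * Real.sqrt p) := by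
    intro i
    by_cases hp2 : p = 2
    · subst hp2
      have h2 : ∀ a : Idx g × Fin d → ZMod M, WW H a * |SA i (rdM b φ h a)| ≤
          WW H a * 2 := fun a => mul_le_mul_of_nonneg_left (SA_two i _ hp) (WW_nonneg H a)
      refine (Finset.sum_le_sum fun a _ => h2 a).trans ?_
      rw [← Finset.sum_mul]
      change ZZ (Idx g × Fin d) M H * 2 ≤ _
      apply mul_le_mul_of_nonneg_left _ hZ
      nlinarith
    · exact mtS1 (H := H) b c hc hW φ h hA hp2 hpK
  have e1 : ∀ a : Idx g × Fin d → ZMod M, WW H a * er p (rdM b φ h a) =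
      (1 / p) * (WW H a + ∑ i, WW H a * |SA i (rdM b φ h a)|) := by
    intro a
    unfold er
    rw [← Finset.mul_sum]
    ring
  rw [Finset.sum_congr rfl fun a _ => e1 a, ← Finset.mul_sum, Finset.sum_add_distrib,
    Finset.sum_comm]
  change 1 / (p : ℝ) * (ZZ (Idx g × Fin d) M H + _) ≤ _
  have h3 : ∑ i : Fin k, ∑ a : Idx g × Fin d → ZMod M, WW H a * |SA i (rdM b φ h a)| ≤
      k * (ZZ (Idx g × Fin d) M H * ((7 * SC κ C) * Real.sqrt p)) := by
    refine (Finset.sum_le_sum fun i _ => h1 i).trans ?_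
    rw [Finset.sum_const, Finset.card_univ, Fintype.card_fin, nsmul_eq_mul]
  have h4 : ZZ (Idx g × Fin d) M H ≤ ZZ (Idx g × Fin d) M H * Real.sqrt p :=
    le_mul_of_one_le_right hZ hs1
  calc 1 / (p : ℝ) * (ZZ (Idx g × Fin d) M H +
        ∑ i : Fin k, ∑ a : Idx g × Fin d → ZMod M, WW H a * |SA i (rdM b φ h a)|)
      ≤ 1 / (p : ℝ) * (ZZ (Idx g × Fin d) M H * Real.sqrt p +
        k * (ZZ (Idx g × Fin d) M H * ((7 * SC κ C) * Real.sqrt p))) :=
        mul_le_mul_of_nonneg_left (add_le_add h4 h3) (by positivity)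
    _ = ZZ (Idx g × Fin d) M H * (1 + k * (7 * SC κ C)) * (Real.sqrt p / p) := by ring
    _ = _ := by
        have : Real.sqrt p / p = 1 / Real.sqrt p := by
          rw [div_eq_div_iff hp0.ne' hs.ne', one_mul, hss]
        rw [this]
        ring

include hc hW hA hM hB hH hdvd in
lemma mean_ET (p : ℕ) (hp : p.Prime) (hpK : p ≤ K) :
    ∑ a ∈ bx (Idx g × Fin d) B, ET (g := g) b p a ≤
      AA (Idx g × Fin d) B * ((d * (1 + k * (7 * SC κ C))) / Real.sqrt p) := by
  have hSC := one_le_SC κ C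
  have hd0 : (0 : ℝ) ≤ d := Nat.cast_nonneg d
  have hpf : Fact p.Prime := ⟨hp⟩
  have hp0 : (0 : ℝ) < p := by exact_mod_cast hp.pos
  have hfin : Finite (R →+* ZMod p) := hom_finite b
  have := Fintype.ofFinite (R →+* ZMod p)
  have hcard : (Fintype.card (R →+* ZMod p) : ℝ) ≤ d := by exact_mod_cast card_hom_le b
  have h := hdvd p hp hpK
  have hZ : 0 ≤ ZZ (Idx g × Fin d) M H := ZZ_nonneg
  have h1 : ∑ a ∈ bx (Idx g × Fin d) B, ET (g := g) b p a = ∑ a ∈ bx (Idx g × Fin d) B,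
      ET (g := g) b p (up fun m => ((a m : ℤ) : ZMod M)) := by
    refine Finset.sum_congr rfl fun a _ => ?_
    exact (HT_mod b _ hp h a).symm
  rw [h1]
  have e0 : ∀ a : Idx g × Fin d → ZMod M, ET (g := g) b p (up a) =
      ∑ φ : R →+* ZMod p, er p (rdM b φ h a) := by
    intro a
    unfold ET
    rw [HT_eq]
    refine Finset.sum_congr rfl fun φ _ => ?_
    rw [rd_up b φ h]
  refine box_mean hM hB hH (fun a => ET (g := g) b p (up a)) ?_ (by positivity) ?_
  · intro a
    change 0 ≤ ET (g := g) b p (up a)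
    rw [e0]
    exact Finset.sum_nonneg fun _ _ => er_nonneg _
  · have e1 : ∀ a : Idx g × Fin d → ZMod M, WW H a * ET (g := g) b p (up a) =
        ∑ φ : R →+* ZMod p, WW H a * er p (rdM b φ h a) := by
      intro a
      rw [e0, Finset.mul_sum]
    rw [Finset.sum_congr rfl fun a _ => e1 a, Finset.sum_comm]
    have h5 : 0 ≤ (1 + k * (7 * SC κ C)) / Real.sqrt p := by positivity
    calc _ ≤ ∑ _φ : R →+* ZMod p,
              ZZ (Idx g × Fin d) M H * ((1 + k * (7 * SC κ C)) / Real.sqrt p) :=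
            Finset.sum_le_sum fun φ _ => er_mean (H := H) b hc hW hA hpK h φ
      _ = Fintype.card (R →+* ZMod p) *
            (ZZ (Idx g × Fin d) M H * ((1 + k * (7 * SC κ C)) / Real.sqrt p)) := by
          rw [Finset.sum_const, Finset.card_univ, nsmul_eq_mul]
      _ ≤ d * (ZZ (Idx g × Fin d) M H * ((1 + k * (7 * SC κ C)) / Real.sqrt p)) :=
          mul_le_mul_of_nonneg_right hcard (by positivity)
      _ = _ := by ring

end Moments

end Pool.Agent.Helper28.TM
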