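import Pool.Agent.LL.Roots

set_option autoImplicit false

namespace Pool.Agent.Helper28.TM

open Polynomial Finset
open Pool.Agent.Helper28.TL (pigeon)
open Pool.Agent.LL (Ann mah pol pol_coeff height mah_le mah_mul one_le_mah coeff_le_mah exists_min
  sum_pow_le exists_q)

/-- the bound for the coefficients of the annihilators of degree `k` -/
def bnd (m L q k : ℕ) : ℕ := (2 ^ m * (2 ^ (L + 1) * (L + 1) + m)) ^ (L + 2 - 2 * k) * q ^ (m - k)

/-- the largest possible coefficient -/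
def top (m L q k : ℕ) : ℕ :=
  Nat.findGreatest (fun x => x ^ (L + 2 - 2 * k) ≤ bnd m L q k) (bnd m L q k)

open Classical in
/-- the finite set of polynomials of the key lemma -/
noncomputable def GG (m L q : ℕ) : Finset ℤ[X] :=
  (Finset.Ico 1 m).biUnion fun k => ((Fintype.piFinset fun _ : Fin (k + 1) =>
    Finset.Icc (-(top m L q k : ℤ)) (top m L q k : ℤ)).image pol).filter fun G =>
      G.IsPrimitive ∧ 1 ≤ G.natDegree ∧ G.natDegree < m

lemma mem_GG {m L q : ℕ} {G : ℤ[X]} (hG : G.IsPrimitive) (h1 : 1 ≤ G.natDegree)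
    (hm : G.natDegree < m) (he : 2 * G.natDegree ≤ L + 1)
    (hb : ∀ n, |G.coeff n|.toNat ^ (L + 2 - 2 * G.natDegree) ≤ bnd m L q G.natDegree) :
    G ∈ GG m L q := by
  classical
  unfold GG
  rw [Finset.mem_biUnion]
  refine ⟨G.natDegree, Finset.mem_Ico.2 ⟨h1, hm⟩, ?_⟩
  rw [Finset.mem_filter]
  refine ⟨?_, hG, h1, hm⟩
  rw [Finset.mem_image]
  refine ⟨fun j => G.coeff j, ?_, ?_⟩
  · rw [Fintype.mem_piFinset]
    intro j
    rw [Finset.mem_Icc, ← abs_le]
    have h2 : |G.coeff j|.toNat ≤ top m L q G.natDegree := by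
      exact Nat.le_findGreatest
        (P := fun x => x ^ (L + 2 - 2 * G.natDegree) ≤ bnd m L q G.natDegree)
        ((Nat.le_self_pow (by omega) _).trans (hb j)) (hb j)
    have h3 : ((|G.coeff j|.toNat : ℕ) : ℤ) = |G.coeff j| := Int.toNat_of_nonneg (abs_nonneg _)
    rw [← h3]
    exact_mod_cast h2
  · ext n
    rw [pol_coeff]
    split_ifs with hn
    · rfl
    · exact (coeff_eq_zero_of_natDegree_lt (by omega)).symm

lemma bnd_pos {m L q k : ℕ} (hq : 1 ≤ q) : 1 ≤ bnd m L q k := by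
  unfold bnd
  apply Nat.one_le_iff_ne_zero.2
  positivity

lemma top_spec {m L q k : ℕ} (hq : 1 ≤ q) :
    top m L q k ^ (L + 2 - 2 * k) ≤ bnd m L q k ∧ 1 ≤ top m L q k := by
  constructor
  · unfold top
    apply Nat.findGreatest_spec (P := fun x => x ^ (L + 2 - 2 * k) ≤ bnd m L q k) (bnd_pos hq)
    rw [one_pow]; exact bnd_pos hq
  · unfold top
    apply Nat.le_findGreatest (bnd_pos hq)
    rw [one_pow]; exact bnd_pos hq

lemma top_pow {m L q k D : ℕ} (hq : 1 ≤ q) (hke : 2 * k ≤ L + 1)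
    (hD : D * ((m - k) * (k + 1)) ≤ m * (L + 2 - 2 * k)) :
    ((2 * top m L q k + 1) ^ (k + 1)) ^ D ≤
      (3 * (2 ^ m * (2 ^ (L + 1) * (L + 1) + m))) ^ ((k + 1) * D) * q ^ m := by
  obtain ⟨h1, h2⟩ := top_spec (m := m) (L := L) (k := k) hq
  obtain ⟨A, hA⟩ : ∃ A, A = 2 ^ m * (2 ^ (L + 1) * (L + 1) + m) := ⟨_, rfl⟩
  have h3 : top m L q k ^ ((k + 1) * D) ≤ A ^ ((k + 1) * D) * q ^ m := by
    have hE : L + 2 - 2 * k ≠ 0 := by omega
    rw [← Nat.pow_le_pow_iff_left hE]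
    calc (top m L q k ^ ((k + 1) * D)) ^ (L + 2 - 2 * k) =
          (top m L q k ^ (L + 2 - 2 * k)) ^ ((k + 1) * D) := by rw [← pow_mul, ← pow_mul, mul_comm]
      _ ≤ (bnd m L q k) ^ ((k + 1) * D) := Nat.pow_le_pow_left h1 _
      _ = (A ^ ((k + 1) * D)) ^ (L + 2 - 2 * k) * q ^ (D * ((m - k) * (k + 1))) := by
          unfold bnd
          rw [← hA, mul_pow, ← pow_mul, ← pow_mul, ← pow_mul]
          congr 2 <;> ring
      _ ≤ (A ^ ((k + 1) * D)) ^ (L + 2 - 2 * k) * q ^ (m * (L + 2 - 2 * k)) :=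
          Nat.mul_le_mul_left _ (Nat.pow_le_pow_right hq hD)
      _ = _ := by rw [mul_pow, ← pow_mul q]
  rw [← pow_mul, ← hA, mul_pow, mul_assoc]
  calc (2 * top m L q k + 1) ^ ((k + 1) * D) ≤ (3 * top m L q k) ^ ((k + 1) * D) :=
        Nat.pow_le_pow_left (by omega) _
    _ = 3 ^ ((k + 1) * D) * top m L q k ^ ((k + 1) * D) := mul_pow _ _ _
    _ ≤ _ := Nat.mul_le_mul_left _ h3

/-- the key lemma: sequences with short recurrences modulo `M` are annihilated by one of few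
polynomials of small degree -/
theorem key {m D L : ℕ} (hm : 1 ≤ m) (hL : 2 * m ≤ L + 3) (hD0 : 1 ≤ D)
    (hD : ∀ k, 1 ≤ k → k + 1 ≤ m → D * ((m - k) * (k + 1)) ≤ m * (L + 2 - 2 * k)) :
    ∃ C : ℕ, ∀ q : ℕ, 1 ≤ q → ∃ 𝒢 : Finset ℤ[X], 𝒢.card ^ D ≤ C * q ^ m ∧
      (∀ G ∈ 𝒢, G.IsPrimitive ∧ 1 ≤ G.natDegree ∧ G.natDegree < m) ∧
      ∀ (𝓡 : Type) [CommRing 𝓡] [Fintype 𝓡] (τ : 𝓡) (θ : ℕ → ℤ) (H M : ℕ),
        Fintype.card 𝓡 < (q + 1) ^ m → (∀ j ≤ L, |θ j| ≤ (H : ℤ)) → (L + 1) * (q * H) < M →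
        (∃ j ≤ L, θ j ≠ 0) →
        (∀ G : ℤ[X], aeval τ G = 0 → ∀ i, i + G.natDegree ≤ L →
          (M : ℤ) ∣ ∑ j ∈ range (G.natDegree + 1), G.coeff j * θ (i + j)) →
        ∃ G ∈ 𝒢, Ann L θ G := by
  classical
  refine ⟨m ^ D * (3 * (2 ^ m * (2 ^ (L + 1) * (L + 1) + m))) ^ (m * D), fun q hq =>
    ⟨GG m L q, ?_, ?_, ?_⟩⟩
  · have h1 : (GG m L q).card ≤ ∑ k ∈ Finset.Ico 1 m, (2 * top m L q k + 1) ^ (k + 1) := by
      unfold GG
      refine Finset.card_biUnion_le.trans (Finset.sum_le_sum fun k _ => ?_)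
      refine (Finset.card_filter_le _ _).trans (Finset.card_image_le.trans (le_of_eq ?_))
      rw [Fintype.card_piFinset, Finset.prod_const, Finset.card_univ, Fintype.card_fin,
        Int.card_Icc]
      congr 1
      omega
    refine (Nat.pow_le_pow_left h1 D).trans ?_
    rw [mul_assoc]
    apply sum_pow_le
    · rw [Nat.card_Ico]; omega
    · exact hm
    · exact Nat.one_le_iff_ne_zero.2 (by positivity)
    · intro k hk
      rw [Finset.mem_Ico] at hk
      refine (top_pow hq (by omega) (hD k hk.1 hk.2)).trans ?_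
      apply Nat.mul_le_mul_right
      apply Nat.pow_le_pow_right (Nat.one_le_iff_ne_zero.2 (by positivity))
      exact Nat.mul_le_mul_right _ hk.2
  · intro G hG
    unfold GG at hG
    obtain ⟨k, _, hk⟩ := Finset.mem_biUnion.1 hG
    exact (Finset.mem_filter.1 hk).2
  · intro 𝓡 _ _ τ θ H M hN hθ hM hne hdiv
    -- short polynomials annihilate
    have hshort : ∀ P : ℤ[X], (∀ n, |P.coeff n| ≤ (q : ℤ)) → aeval τ P = 0 → Ann L θ P := by
      intro P hP hτ i hi
      apply Int.eq_zero_of_abs_lt_dvd (hdiv P hτ i hi)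
      have h1 : |∑ j ∈ range (P.natDegree + 1), P.coeff j * θ (i + j)| ≤
          ∑ _j ∈ range (P.natDegree + 1), (q : ℤ) * H := by
        refine (Finset.abs_sum_le_sum_abs _ _).trans (Finset.sum_le_sum fun j hj => ?_)
        rw [Finset.mem_range] at hj
        rw [abs_mul]
        exact mul_le_mul (hP j) (hθ _ (by omega)) (abs_nonneg _) (by positivity)
      refine lt_of_le_of_lt h1 ?_
      rw [Finset.sum_const, Finset.card_range, nsmul_eq_mul]
      have h2 : (P.natDegree + 1) * (q * H) ≤ (L + 1) * (q * H) :=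
        Nat.mul_le_mul_right _ (by omega)
      have h3 := lt_of_le_of_lt h2 hM
      exact_mod_cast h3
    obtain ⟨Q, hQ0, hQm, hQq, hQτ⟩ := pigeon τ hN
    obtain ⟨G, hG, hGA, hGmin, hGdvd⟩ := exists_min ⟨Q, hQ0, hshort Q hQq hQτ⟩
    have hG0 : G ≠ 0 := hG.ne_zero
    have hGm : G.natDegree < m := lt_of_le_of_lt (hGmin Q hQ0 (hshort Q hQq hQτ)) hQm
    have hG1 : 1 ≤ G.natDegree := by
      by_contra hcon
      have h0 : G.natDegree = 0 := by omega
      obtain ⟨j, hj, hθj⟩ := hne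
      have h1 := hGA j (by omega)
      rw [h0, zero_add, Finset.sum_range_one, add_zero] at h1
      rcases mul_eq_zero.1 h1 with h2 | h2
      · apply hG0
        rw [eq_C_of_natDegree_eq_zero h0, h2, C_0]
      · exact hθj h2
    obtain ⟨e, he⟩ : ∃ e, e = L + 1 - G.natDegree := ⟨_, rfl⟩
    have hE : e + 1 - G.natDegree = L + 2 - 2 * G.natDegree := by omega
    have hdvd : ∀ P : ℤ[X], P.natDegree ≤ e → (∀ n, |P.coeff n| ≤ (q : ℤ)) → aeval τ P = 0 →
        G ∣ P := by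
      intro P hPe hPq hPτ
      exact hGdvd P (hshort P hPq hPτ) (by omega)
    have hmah : mah G ≤ m * q := by
      obtain ⟨F, hF⟩ := hdvd Q (by omega) hQq hQτ
      have hF0 : F ≠ 0 := by
        rintro rfl
        exact hQ0 (by rw [hF, mul_zero])
      have h1 := mah_le hQm hQq
      rw [hF, mah_mul] at h1
      have h2 := one_le_mah hF0
      have h3 := one_le_mah hG0
      nlinarith
    have hht := height hq (by omega : m ≤ e + 1) hN hG0 hGm hdvd hmah
    rw [hE] at hht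
    refine ⟨G, mem_GG hG hG1 hGm (by omega) ?_, hGA⟩
    intro n
    have h1 := coeff_le_mah (K := m) hGm.le n
    have h2 : ((|G.coeff n|.toNat : ℕ) : ℝ) = |((G.coeff n : ℤ) : ℝ)| := by
      have h6 : ((|G.coeff n|.toNat : ℕ) : ℤ) = |G.coeff n| := Int.toNat_of_nonneg (abs_nonneg _)
      have h7 : (((|G.coeff n|.toNat : ℕ) : ℤ) : ℝ) = ((|G.coeff n| : ℤ) : ℝ) := by rw [h6]
      push_cast at h7
      exact h7
    have h4 : ((2 ^ (e + 1) * (e + 1) + m : ℕ) : ℝ) ≤ ((2 ^ (L + 1) * (L + 1) + m : ℕ) : ℝ) := by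
      have h5 : 2 ^ (e + 1) * (e + 1) ≤ 2 ^ (L + 1) * (L + 1) :=
        Nat.mul_le_mul (Nat.pow_le_pow_right (by norm_num) (by omega)) (by omega)
      exact_mod_cast Nat.add_le_add_right h5 m
    have h3 : ((|G.coeff n|.toNat ^ (L + 2 - 2 * G.natDegree) : ℕ) : ℝ) ≤
        ((bnd m L q G.natDegree : ℕ) : ℝ) := by
      rw [Nat.cast_pow, h2]
      calc |((G.coeff n : ℤ) : ℝ)| ^ (L + 2 - 2 * G.natDegree) ≤
            (2 ^ m * mah G) ^ (L + 2 - 2 * G.natDegree) := pow_le_pow_left₀ (abs_nonneg _) h1 _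
        _ = (2 ^ m) ^ (L + 2 - 2 * G.natDegree) * mah G ^ (L + 2 - 2 * G.natDegree) :=
          mul_pow _ _ _
        _ ≤ (2 ^ m) ^ (L + 2 - 2 * G.natDegree) * (((2 ^ (e + 1) * (e + 1) + m : ℕ) : ℝ) ^
            (L + 2 - 2 * G.natDegree) * (q : ℝ) ^ (m - G.natDegree)) :=
          mul_le_mul_of_nonneg_left hht (by positivity)
        _ ≤ (2 ^ m) ^ (L + 2 - 2 * G.natDegree) * (((2 ^ (L + 1) * (L + 1) + m : ℕ) : ℝ) ^
            (L + 2 - 2 * G.natDegree) * (q : ℝ) ^ (m - G.natDegree)) := by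
          apply mul_le_mul_of_nonneg_left _ (by positivity)
          apply mul_le_mul_of_nonneg_right _ (by positivity)
          exact pow_le_pow_left₀ (by positivity) h4 _
        _ = _ := by
          unfold bnd
          push_cast
          rw [mul_pow]
          ring
    exact_mod_cast h3

end Pool.Agent.Helper28.TM
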