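import Pool.Agent.Helper28.TM.Par

set_option autoImplicit false

namespace Pool.Agent.Helper28.TM

open Polynomial Finset
open Pool.Agent.Helper28.TC (WW)
open Pool.Agent.Helper28.TC.N (Idx)
open Pool.Agent.Helper28.TL (eth eth_add eth_sum exists_eth eth_eq_one kap frq frq_abs eth_kap)
open Pool.Agent.LL (Ann sum_shift)

section Kap

variable {k d : ℕ} {g : Fin k → ℕ} {M : ℕ} [NeZero M]

/-- The combination of the frequencies. -/
def fr (θ : Idx g × Fin d → ℤ) (c : Fin d → ℤ) (i : Fin k) (j : ℕ) : ℤ :=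
  ∑ l, c l * frq θ i l j

lemma fr_abs {θ : Idx g × Fin d → ℤ} {H W : ℕ} (h : ∀ x, |θ x| ≤ (H : ℤ)) {c : Fin d → ℤ}
    (hc : ∑ l, |c l| ≤ (W : ℤ)) (i : Fin k) (j : ℕ) : |fr θ c i j| ≤ ((H * W : ℕ) : ℤ) := by
  unfold fr
  refine (Finset.abs_sum_le_sum_abs _ _).trans ?_
  calc ∑ l, |c l * frq θ i l j| ≤ ∑ l, |c l| * (H : ℤ) := by
        refine Finset.sum_le_sum fun l _ => ?_
        rw [abs_mul]
        exact mul_le_mul_of_nonneg_left (frq_abs h i l j) (abs_nonneg _)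
    _ = (∑ l, |c l|) * H := by rw [Finset.sum_mul]
    _ ≤ W * H := mul_le_mul_of_nonneg_right hc (by positivity)
    _ = _ := by push_cast; ring

/-- If the combination of the frequencies annihilates a polynomial, so does the character. -/
lemma eth_comb (θ : Idx g × Fin d → ℤ) (c : Fin d → ℤ) (i : Fin k) (P : ℤ[X]) :
    eth θ (∑ l, kap i l (C (c l) * P) : Idx g × Fin d → ZMod M) = ZMod.stdAddChar
      (((∑ j ∈ range (2 * g i + 2 + 1), P.coeff j * fr θ c i j : ℤ)) : ZMod M) := by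
  classical
  have h1 : ∀ T : Finset (Fin d), eth θ (∑ l ∈ T, kap i l (C (c l) * P) :
      Idx g × Fin d → ZMod M) = ZMod.stdAddChar
      (((∑ l ∈ T, ∑ j ∈ range (2 * g i + 2 + 1), P.coeff j * (c l * frq θ i l j) : ℤ)) :
        ZMod M) := by
    intro T
    induction T using Finset.induction_on with
    | empty => simp [eth]
    | insert x T hx ih =>
        have e : ∑ j ∈ range (2 * g i + 2 + 1), frq θ i x j * (C (c x) * P).coeff j =
            ∑ j ∈ range (2 * g i + 2 + 1), P.coeff j * (c x * frq θ i x j) := by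
          refine Finset.sum_congr rfl fun j _ => ?_
          rw [coeff_C_mul]
          ring
        rw [Finset.sum_insert hx, Finset.sum_insert hx, eth_add, ih, eth_kap, e, Int.cast_add,
          AddChar.map_add_eq_mul]
  rw [h1, Finset.sum_comm]
  congr 2
  refine Finset.sum_congr rfl fun j _ => ?_
  unfold fr
  rw [Finset.mul_sum]

lemma ann_sum {D κ : ℕ} {θ : ℕ → ℤ} {G P : ℤ[X]} (hG : Ann D θ G) (hGd : G.natDegree < κ)
    (hD : κ + 2 ≤ D) (hP : P.natDegree ≤ 3) :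
    ∑ j ∈ range (D + 1), (P * G).coeff j * θ j = 0 := by
  have h1 : P * G = ∑ n ∈ range (3 + 1), C (P.coeff n) * (X ^ n * G) := by
    conv_lhs => rw [P.as_sum_range_C_mul_X_pow' (Nat.lt_succ_of_le hP)]
    rw [Finset.sum_mul]
    refine Finset.sum_congr rfl fun n _ => ?_
    ring
  have h2 : ∀ j, (P * G).coeff j = ∑ n ∈ range (3 + 1), P.coeff n * (X ^ n * G).coeff j := by
    intro j
    rw [h1, finsetSum_coeff]
    exact Finset.sum_congr rfl fun n _ => coeff_C_mul _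
  simp_rw [h2, Finset.sum_mul]
  rw [Finset.sum_comm]
  refine Finset.sum_eq_zero fun n hn => ?_
  rw [Finset.mem_range] at hn
  have h3 : ∑ j ∈ range (D + 1), P.coeff n * (X ^ n * G).coeff j * θ j =
      P.coeff n * ∑ j ∈ range (D + 1), (X ^ n * G).coeff j * θ j := by
    rw [Finset.mul_sum]
    exact Finset.sum_congr rfl fun j _ => by ring
  rw [h3, sum_shift θ (by omega), hG n (by omega), mul_zero]

/-- The main lemma: if a weighted sum does not vanish, then the points are zeros of one of few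
polynomials of small degree. -/
theorem lemB {𝓡 : Type} [CommRing 𝓡] [Fintype 𝓡] {H W : ℕ} (i : Fin k) (τ : 𝓡) (β : Fin d → 𝓡)
    (c : Fin d → ℤ) (hc : ∑ l, (c l : 𝓡) * β l = 1) (hW : ∑ l, |c l| ≤ (W : ℤ))
    (L : (Idx g × Fin d → ZMod M) →+ 𝓡)
    (hL : ∀ l (P : ℤ[X]), P.natDegree ≤ 2 * g i + 2 → L (kap i l P) = β l * aeval τ P)
    (Φ : 𝓡 → ℝ) (F : (Idx g × Fin d → ZMod M) → ℝ) (hF : ∀ a l P, F (a + kap i l P) = F a)
    {κ N : ℕ} {𝒢 : Finset ℤ[X]} (ha : Adm (2 * g i + 2) M (H * W) κ 𝒢 N)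
    (hN : Fintype.card 𝓡 ≤ N) (hI : ∀ r : 𝓡, ∃ P : ℤ[X], P.natDegree ≤ 3 ∧ aeval τ P = r)
    (hne : ∑ a, WW H a * (Φ (L a) * F a) ≠ 0) :
    ∃ G ∈ 𝒢, ∀ I : Finset 𝓡, I.Nonempty → (∀ r, ∑ s ∈ I, Φ (r + s) = 0) →
        ∃ s ∈ I, ¬ (aeval τ G ∣ s) := by
  classical
  obtain ⟨θ, hθ, hS⟩ := exists_eth hne
  have hFT : ∀ (P : ℤ[X]) (T : Finset (Fin d)) a,
      F (a + ∑ l ∈ T, kap i l (C (c l) * P)) = F a := by
    intro P T
    induction T using Finset.induction_on with
    | empty => intro a; rw [Finset.sum_empty, add_zero]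
    | insert x T hx ih =>
        intro a
        rw [Finset.sum_insert hx, ← add_assoc, ih, hF]
  have hLT : ∀ P : ℤ[X], P.natDegree ≤ 2 * g i + 2 →
      L (∑ l, kap i l (C (c l) * P)) = aeval τ P := by
    intro P hP
    have hd : ∀ l, (C (c l) * P).natDegree ≤ 2 * g i + 2 := fun l =>
      (natDegree_C_mul_le (c l) P).trans hP
    rw [map_sum, Finset.sum_congr rfl fun l _ => hL l _ (hd l)]
    have h2 : ∀ l, β l * aeval τ (C (c l) * P) = ((c l : 𝓡) * β l) * aeval τ P := by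
      intro l
      rw [map_mul, aeval_C]
      simp only [algebraMap_int_eq, eq_intCast]
      ring
    rw [Finset.sum_congr rfl fun l _ => h2 l, ← Finset.sum_mul, hc, one_mul]
  obtain ⟨G, hG, hA⟩ := ha.hit 𝓡 τ (fr θ c i) hN (fun j _ => fr_abs hθ hW i j) (by
    intro Q hQ n hn
    have hd : (X ^ n * Q).natDegree ≤ 2 * g i + 2 := by
      refine natDegree_mul_le.trans ?_
      rw [natDegree_X_pow]
      exact hn
    have h1 : eth θ (∑ l, kap i l (C (c l) * (X ^ n * Q)) : Idx g × Fin d → ZMod M) = 1 := by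
      apply eth_eq_one hS
      intro a
      rw [hFT, map_add, hLT _ hd, map_mul, hQ, mul_zero, add_zero]
    rw [eth_comb] at h1
    rw [← sum_shift (fr θ c i) hn]
    have h2 : (((∑ j ∈ range (2 * g i + 2 + 1), (X ^ n * Q).coeff j * fr θ c i j : ℤ)) :
        ZMod M) = 0 := by
      apply ZMod.injective_stdAddChar
      rw [h1, AddChar.map_zero_eq_one]
    rwa [ZMod.intCast_zmod_eq_zero_iff_dvd] at h2)
  refine ⟨G, hG, ?_⟩
  intro I hIn hIΦ
  by_contra hcon
  push Not at hcon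
  have htr : ∀ s ∈ I, ∃ v : Idx g × Fin d → ZMod M, L v = s ∧ eth θ v = 1 ∧
      ∀ a, F (a + v) = F a := by
    intro s hs
    obtain ⟨r, hr⟩ := hcon s hs
    obtain ⟨P, hPd, hPr⟩ := hI r
    have hGd := (ha.prim G hG).2
    have hdeg := ha.deg
    have hPG : (P * G).natDegree ≤ 2 * g i + 2 := by
      refine natDegree_mul_le.trans ?_
      omega
    refine ⟨∑ l, kap i l (C (c l) * (P * G)), ?_, ?_, hFT _ _⟩
    · rw [hLT _ hPG, map_mul, hPr, hr, mul_comm]
    · rw [eth_comb, ann_sum hA hGd hdeg hPd, Int.cast_zero, AddChar.map_zero_eq_one]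
  have hs : ∀ s ∈ I, ∑ a : Idx g × Fin d → ZMod M, eth θ a * ((Φ (L a) * F a : ℝ) : ℂ) =
      ∑ a : Idx g × Fin d → ZMod M, eth θ a * ((Φ (L a + s) * F a : ℝ) : ℂ) := by
    intro s hs
    obtain ⟨v, hv1, hv2, hv3⟩ := htr s hs
    conv_lhs => rw [← Equiv.sum_comp (Equiv.addRight v)]
    refine Finset.sum_congr rfl fun a _ => ?_
    rw [Equiv.coe_addRight, eth_add, hv2, mul_one, map_add, hv1, hv3]
  have h3 : (I.card : ℂ) *
      ∑ a : Idx g × Fin d → ZMod M, eth θ a * ((Φ (L a) * F a : ℝ) : ℂ) = 0 := by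
    rw [← nsmul_eq_mul, ← Finset.sum_const, Finset.sum_congr rfl hs, Finset.sum_comm]
    refine Finset.sum_eq_zero fun a _ => ?_
    rw [← Finset.mul_sum, ← Complex.ofReal_sum, ← Finset.sum_mul, hIΦ, zero_mul,
      Complex.ofReal_zero, mul_zero]
  rcases mul_eq_zero.1 h3 with h4 | h4
  · have h5 : I.card ≠ 0 := Finset.card_ne_zero.2 hIn
    exact h5 (by exact_mod_cast h4)
  · exact hS h4

end Kap

end Pool.Agent.Helper28.TM
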