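import Pool.Agent.Helper28.TM.Hom
import Pool.Agent.Helper28.TL.Det
import Pool.Agent.Helper28.TL.Lng

set_option autoImplicit false

namespace Pool.Agent.Helper28.TM

open Polynomial Finset
open Pool.Agent.Helper28.TC (BA bx card_box PR Bs RM AA AA_nonneg sum_inv_sq)
open Pool.Agent.Helper28.TC.N (Idx tt)
open Pool.Agent.Helper28.TL (rdM rd_up ZZ ZZ_nonneg SA v1 er Ce Ce_nonneg HT HT_eq HT_mod VT ET YT BT
  Mom mom_of box_mean er_nonneg SA_two xl PS bad_levelL exceedL mean_sqrt mean_one level_pos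
  level_sqrt_aux level_one_aux le_PS CBd CBd_nonneg bad_primes ND rare BT_nonneg YT_nonneg
  ET_nonneg sum_tt final_real exists_c e0 e0_pos Ce_e0)

section Const

variable {k : ℕ}

/-- The constant of the moments for the genera. -/
noncomputable def S0 (g : Fin k → ℕ) : ℝ := SC (fun i => mp (g i)) fun i => Cp (g i)

/-- The constant for the main terms. -/
noncomputable def cV (g : Fin k → ℕ) (d : ℕ) : ℝ :=
  ((d : ℝ) ^ 2 * (88 * S0 g) + 4 * (d * (2 * S0 g)) ^ 2) / (1 / 4) ^ 2 * (72 / Real.log 2 ^ 6)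

/-- The constant for the error terms. -/
noncomputable def cE (g : Fin k → ℕ) (d : ℕ) : ℝ :=
  (d * (1 + k * (7 * S0 g))) / e0 g * (6 / Real.log 2 ^ 3)

/-- The constant for the squares. -/
noncomputable def cY (g : Fin k → ℕ) (d : ℕ) : ℝ :=
  (d * (88 * S0 g)) / 1 * (6 / Real.log 2 ^ 3)

/-- The constant for a level. -/
noncomputable def cA (g : Fin k → ℕ) (d : ℕ) : ℝ :=
  Fintype.card (Bs k) * cV g d + cE g d + Fintype.card (Bs k) * cY g d

/-- The constant. -/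
noncomputable def CL (g : Fin k → ℕ) (d : ℕ) : ℝ :=
  8 ^ Fintype.card (Idx g × Fin d) * cA g d * 4 + CBd g d * ∑ i, (g i : ℝ)

variable (g : Fin k → ℕ) (d : ℕ)

lemma S0_pos : 0 < S0 g := lt_of_lt_of_le one_pos (one_le_SC _ _)

lemma cV_nonneg : 0 ≤ cV g d := by
  unfold cV
  have := S0_pos g
  have hl : 0 < Real.log 2 := Real.log_pos (by norm_num)
  positivity

lemma cE_nonneg : 0 ≤ cE g d := by
  unfold cE
  have := S0_pos g
  have := e0_pos g
  have hl : 0 < Real.log 2 := Real.log_pos (by norm_num)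
  positivity

lemma cY_nonneg : 0 ≤ cY g d := by
  unfold cY
  have := S0_pos g
  have hl : 0 < Real.log 2 := Real.log_pos (by norm_num)
  positivity

lemma cA_nonneg : 0 ≤ cA g d := by
  unfold cA
  have h1 := cV_nonneg g d
  have h2 := cE_nonneg g d
  have h3 := cY_nonneg g d
  positivity

lemma CL_nonneg : 0 ≤ CL g d := by
  unfold CL
  have h1 := cA_nonneg g d
  have h2 := CBd_nonneg (g := g) (d := d)
  have h3 : 0 ≤ ∑ i, (g i : ℝ) := Finset.sum_nonneg fun i _ => Nat.cast_nonneg _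
  positivity

end Const

section Level

variable {R : Type} [CommRing R] {k d : ℕ} {g : Fin k → ℕ} (b : Module.Basis (Fin d) ℤ R)
  (w : ∀ p : ℕ, (R →+* ZMod p) → ℝ)

open Classical in
/-- The bad vectors of a level. -/
noncomputable def LV (B K j : ℕ) : Finset (Idx g × Fin d → ℤ) :=
  (univ.biUnion fun β : Bs k => (bx (Idx g × Fin d) B).filter fun a =>
    (1 / 4 : ℝ) ^ 2 * ((2 : ℝ) ^ j * ((j : ℝ) * Real.log 2) ^ 6) <
      RM (xl (VT b w β) K a) (j + 1) 0) ∪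
  ((bx (Idx g × Fin d) B).filter fun a =>
    e0 g * (Real.sqrt (2 ^ j) * ((j : ℝ) * Real.log 2) ^ 3) < PS (ET b) K j a) ∪
  (univ.biUnion fun β : Bs k => (bx (Idx g × Fin d) B).filter fun a =>
    1 * (2 ^ j * ((j : ℝ) * Real.log 2) ^ 3) < PS (YT b β) K j a)

variable {M H W K B : ℕ} [NeZero M] {c : Fin d → ℤ} (hc : ∑ l, (c l : R) * b l = 1)
  (hW : ∑ l, |c l| ≤ (W : ℤ))
  (hA : ∀ i N, 1 ≤ N → N ≤ K ^ 4 → ∃ 𝒢 : Finset ℤ[X], 𝒢.card ^ 4 ≤ Cp (g i) ^ 4 * N ∧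
    Adm (2 * g i + 2) M (H * W) (mp (g i)) 𝒢 N)
  (hM : M = 8 * B * H) (hB : 1 ≤ B) (hH : 1 ≤ H) (hdvd : ∀ p, p.Prime → p ≤ K → p ∣ M)

variable {w}

include hc hW hA hM hB hH hdvd in
lemma card_LV (hw : ∀ p φ, |w p φ| ≤ 1) {j : ℕ} (hj : 1 ≤ j) :
    ((LV (g := g) b w B K j).card : ℝ) ≤
      AA (Idx g × Fin d) B * cA g d * (1 / (j : ℝ) ^ 2) := by
  classical
  have hl : 0 < Real.log 2 := Real.log_pos (by norm_num)
  have hj0 : (0 : ℝ) < j := by exact_mod_cast hj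
  have hAA := AA_nonneg (Idx g × Fin d) B
  have hS := S0_pos g
  have he := e0_pos g
  have hd0 : (0 : ℝ) ≤ d := Nat.cast_nonneg d
  have h1 : ∀ β : Bs k, (((bx (Idx g × Fin d) B).filter fun a =>
      (1 / 4 : ℝ) ^ 2 * ((2 : ℝ) ^ j * ((j : ℝ) * Real.log 2) ^ 6) <
      RM (xl (VT b w β) K a) (j + 1) 0).card : ℝ) ≤
      AA (Idx g × Fin d) B * cV g d * (1 / (j : ℝ) ^ 2) := by
    intro β
    have F := mom_VT (κ := fun i => mp (g i)) (C := fun i => Cp (g i)) b hc hW hA hM hB hH hdvd hw β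
    refine (bad_levelL F (by norm_num : (0 : ℝ) < (1 / 4) ^ 2) hj).trans (le_of_eq ?_)
    unfold cV S0
    ring
  have h2 : (((bx (Idx g × Fin d) B).filter fun a =>
      e0 g * (Real.sqrt (2 ^ j) * ((j : ℝ) * Real.log 2) ^ 3) < PS (ET b) K j a).card : ℝ) ≤
      AA (Idx g × Fin d) B * cE g d * (1 / (j : ℝ) ^ 2) := by
    have hm := mean_sqrt (y := ET (g := g) b) (K := K) (B := B) (j := j)
      (m := d * (1 + k * (7 * S0 g))) (by positivity)
      (fun p hp hpK => mean_ET (κ := fun i => mp (g i)) (C := fun i => Cp (g i)) b hc hW hA hM hB hH hdvd p hp hpK)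
    have hθ : 0 < e0 g * (Real.sqrt (2 ^ j) * ((j : ℝ) * Real.log 2) ^ 3) := by positivity
    have h3 := level_pos (y := ET (g := g) b) (ET_nonneg b) hθ hm
    refine h3.trans ((level_sqrt_aux hAA (by positivity) he hl hj).trans (le_of_eq ?_))
    unfold cE
    ring
  have h3 : ∀ β : Bs k, (((bx (Idx g × Fin d) B).filter fun a =>
      1 * (2 ^ j * ((j : ℝ) * Real.log 2) ^ 3) < PS (YT b β) K j a).card : ℝ) ≤
      AA (Idx g × Fin d) B * cY g d * (1 / (j : ℝ) ^ 2) := by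
    intro β
    have hm := mean_one (y := YT (g := g) b β) (K := K) (B := B) (j := j)
      (m := d * (88 * S0 g)) (by positivity)
      (fun p hp hpK => mean_YT (κ := fun i => mp (g i)) (C := fun i => Cp (g i)) b hc hW hA hM hB hH hdvd β p hp hpK)
    have hθ : 0 < 1 * (2 ^ j * ((j : ℝ) * Real.log 2) ^ 3) := by positivity
    have h3 := level_pos (y := YT (g := g) b β) (YT_nonneg b β) hθ hm
    refine h3.trans ((level_one_aux hAA (by positivity) one_pos hl hj).trans (le_of_eq ?_))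
    unfold cY
    ring
  have h4 : ((LV (g := g) b w B K j).card : ℝ) ≤
      ∑ β : Bs k, (((bx (Idx g × Fin d) B).filter fun a =>
        (1 / 4 : ℝ) ^ 2 * ((2 : ℝ) ^ j * ((j : ℝ) * Real.log 2) ^ 6) <
        RM (xl (VT b w β) K a) (j + 1) 0).card : ℝ) +
      (((bx (Idx g × Fin d) B).filter fun a =>
        e0 g * (Real.sqrt (2 ^ j) * ((j : ℝ) * Real.log 2) ^ 3) < PS (ET b) K j a).card : ℝ) +
      ∑ β : Bs k, (((bx (Idx g × Fin d) B).filter fun a =>
        1 * (2 ^ j * ((j : ℝ) * Real.log 2) ^ 3) < PS (YT b β) K j a).card : ℝ) := by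
    unfold LV
    have e1 := Finset.card_union_le
      ((univ.biUnion fun β : Bs k => (bx (Idx g × Fin d) B).filter fun a =>
        (1 / 4 : ℝ) ^ 2 * ((2 : ℝ) ^ j * ((j : ℝ) * Real.log 2) ^ 6) <
          RM (xl (VT b w β) K a) (j + 1) 0) ∪
        ((bx (Idx g × Fin d) B).filter fun a =>
          e0 g * (Real.sqrt (2 ^ j) * ((j : ℝ) * Real.log 2) ^ 3) < PS (ET b) K j a))
      (univ.biUnion fun β : Bs k => (bx (Idx g × Fin d) B).filter fun a =>
        1 * (2 ^ j * ((j : ℝ) * Real.log 2) ^ 3) < PS (YT b β) K j a)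
    have e2 := Finset.card_union_le
      (univ.biUnion fun β : Bs k => (bx (Idx g × Fin d) B).filter fun a =>
        (1 / 4 : ℝ) ^ 2 * ((2 : ℝ) ^ j * ((j : ℝ) * Real.log 2) ^ 6) <
          RM (xl (VT b w β) K a) (j + 1) 0)
      ((bx (Idx g × Fin d) B).filter fun a =>
          e0 g * (Real.sqrt (2 ^ j) * ((j : ℝ) * Real.log 2) ^ 3) < PS (ET b) K j a)
    have e3 := Finset.card_biUnion_le (s := (univ : Finset (Bs k)))
      (t := fun β => (bx (Idx g × Fin d) B).filter fun a =>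
        (1 / 4 : ℝ) ^ 2 * ((2 : ℝ) ^ j * ((j : ℝ) * Real.log 2) ^ 6) <
          RM (xl (VT b w β) K a) (j + 1) 0)
    have e4 := Finset.card_biUnion_le (s := (univ : Finset (Bs k)))
      (t := fun β => (bx (Idx g × Fin d) B).filter fun a =>
        1 * (2 ^ j * ((j : ℝ) * Real.log 2) ^ 3) < PS (YT b β) K j a)
    have e5 := e1.trans (add_le_add (e2.trans (add_le_add e3 le_rfl)) e4)
    exact_mod_cast e5
  refine h4.trans ((add_le_add (add_le_add (Finset.sum_le_sum fun β _ => h1 β) h2)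
    (Finset.sum_le_sum fun β _ => h3 β)).trans (le_of_eq ?_))
  rw [Finset.sum_const, Finset.sum_const, Finset.card_univ, nsmul_eq_mul, nsmul_eq_mul]
  unfold cA
  ring

/-- The inequality outside of the bad levels. -/
lemma good_of {T : ℕ} (hw : ∀ p φ, |w p φ| ≤ 1) (hT : 2 ≤ T) (hTK : T ≤ K)
    {a : Idx g × Fin d → ℤ} (ha : a ∈ bx (Idx g × Fin d) B)
    (hlv : a ∉ LV (g := g) b w B K (Nat.log 2 T))
    (hbad : ∑ p ∈ PR T, Real.log p * BT (g := g) b p a ≤ CBd g d * Real.log B)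
    (hBT : B < T ^ 2) (hB : 1 ≤ B) (hL : 128 * CBd g d ≤ Real.log B ^ 2) (β : Bs k) :
    |∑ p ∈ PR T, Real.log p * tt b w β p a| ≤ Real.sqrt T * Real.log T ^ 3 := by
  classical
  have hT0 : (0 : ℝ) < T := by exact_mod_cast (by omega : 0 < T)
  have hT1 : (1 : ℝ) ≤ T := by exact_mod_cast (by omega : 1 ≤ T)
  have hB0 : (0 : ℝ) < B := by exact_mod_cast hB
  have hB1 : (1 : ℝ) ≤ B := by exact_mod_cast hB
  have hlT : 0 ≤ Real.log T := Real.log_nonneg hT1
  have hlB : 0 ≤ Real.log B := Real.log_nonneg hB1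
  have hl2 : 0 < Real.log 2 := Real.log_pos (by norm_num)
  have hs1 : 1 ≤ Real.sqrt T := Real.one_le_sqrt.2 hT1
  have hs2 : (T : ℝ) = Real.sqrt T ^ 2 := (Real.sq_sqrt hT0.le).symm
  unfold LV at hlv
  rw [Finset.mem_union, Finset.mem_union, not_or, not_or] at hlv
  obtain ⟨⟨hv1, hv2⟩, hv3⟩ := hlv
  obtain ⟨j, hj⟩ : ∃ j, j = Nat.log 2 T := ⟨_, rfl⟩
  rw [← hj] at hv1 hv2 hv3
  have h2j : (2 : ℝ) ^ j ≤ T := by
    rw [hj]
    exact_mod_cast Nat.pow_log_le_self 2 (by omega)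
  have hjl : ((j : ℕ) : ℝ) * Real.log 2 ≤ Real.log T := by
    rw [← Real.log_pow]
    exact Real.log_le_log (by positivity) h2j
  have hjl0 : (0 : ℝ) ≤ (j : ℝ) * Real.log 2 := by positivity
  have hjl3 : ((j : ℝ) * Real.log 2) ^ 3 ≤ Real.log T ^ 3 := pow_le_pow_left₀ hjl0 hjl 3
  have hV : |∑ p ∈ PR T, Real.log p * VT (g := g) b w β p a| ≤
      1 / 4 * (Real.sqrt T * Real.log T ^ 3) := by
    by_contra hcon
    push Not at hcon
    apply hv1
    rw [Finset.mem_biUnion]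
    refine ⟨β, Finset.mem_univ _, Finset.mem_filter.2 ⟨ha, ?_⟩⟩
    rw [hj]
    exact exceedL (by norm_num) hT hTK hcon
  have hE : ∑ p ∈ PR T, Real.log p * ET (g := g) b p a ≤
      e0 g * (Real.sqrt T * Real.log T ^ 3) := by
    have h1 : PS (ET (g := g) b) K j a ≤
        e0 g * (Real.sqrt (2 ^ j) * ((j : ℝ) * Real.log 2) ^ 3) := by
      by_contra hcon
      push Not at hcon
      exact hv2 (Finset.mem_filter.2 ⟨ha, hcon⟩)
    have h2 := le_PS (y := ET (g := g) b) (ET_nonneg b) hTK a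
    rw [← hj] at h2
    refine h2.trans (h1.trans ?_)
    apply mul_le_mul_of_nonneg_left _ (e0_pos g).le
    exact mul_le_mul (Real.sqrt_le_sqrt h2j) hjl3 (by positivity) (Real.sqrt_nonneg _)
  have hY : ∑ p ∈ PR T, Real.log p * YT (g := g) b β p a ≤ T * Real.log T ^ 3 := by
    have h1 : PS (YT (g := g) b β) K j a ≤ 1 * (2 ^ j * ((j : ℝ) * Real.log 2) ^ 3) := by
      by_contra hcon
      push Not at hcon
      apply hv3
      rw [Finset.mem_biUnion]
      exact ⟨β, Finset.mem_univ _, Finset.mem_filter.2 ⟨ha, hcon⟩⟩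
    have h2 := le_PS (y := YT (g := g) b β) (YT_nonneg b β) hTK a
    rw [← hj] at h2
    refine h2.trans (h1.trans ?_)
    rw [one_mul]
    exact mul_le_mul h2j hjl3 (by positivity) hT0.le
  have hBd0 : 0 ≤ ∑ p ∈ PR T, Real.log p * BT (g := g) b p a := by
    apply Finset.sum_nonneg
    intro p hp
    have hpp : p.Prime := (Finset.mem_filter.1 hp).2
    exact mul_nonneg (Real.log_nonneg (by exact_mod_cast hpp.one_le)) (BT_nonneg b p a)
  have hlB2 : Real.log B ≤ 2 * Real.log T := by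
    have h1 : (B : ℝ) ≤ (T : ℝ) ^ 2 := by exact_mod_cast hBT.le
    have h2 := Real.log_le_log hB0 h1
    rw [Real.log_pow] at h2
    push_cast at h2
    exact h2
  have hcL : 32 * CBd g d ≤ Real.log T ^ 2 := by
    have h1 : Real.log B ^ 2 ≤ (2 * Real.log T) ^ 2 := pow_le_pow_left₀ hlB hlB2 2
    nlinarith
  exact (sum_tt b hw β T a).trans (final_real hs1 hs2 hlT CBd_nonneg hV Ce_nonneg hE (Ce_e0 g)
    hBd0 hbad hlB2 hY hcL)

end Level

section Long

variable {R : Type} [CommRing R] {k d : ℕ} {g : Fin k → ℕ}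

open Classical in
/-- The long range. -/
theorem long (b : Module.Basis (Fin d) ℤ R) (hg : ∀ i, 1 ≤ g i) (i₀ : Fin k) :
    ∃ B₀ : ℕ, ∀ w : ∀ p : ℕ, (R →+* ZMod p) → ℝ, (∀ p φ, |w p φ| ≤ 1) → ∀ T₀ B : ℕ, 2 ≤ T₀ →
      B₀ ≤ B →
      (((bx (Idx g × Fin d) B).filter fun a => ∃ T : ℕ, T₀ ≤ T ∧ B < T ^ 2 ∧
        (∀ i, T ^ 9 ≤ B ^ (2 * g i)) ∧ ∃ β : Bs k, Real.sqrt T * Real.log T ^ 3 <
          |∑ p ∈ PR T, Real.log p * tt b w β p a|).card : ℝ) ≤
      CL g d / Real.log T₀ * (bx (Idx g × Fin d) B).card := by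
  obtain ⟨B1, hB1⟩ := bad_primes (g := g) b
  obtain ⟨c, hc⟩ := exists_c b
  obtain ⟨W, hW'⟩ : ∃ W : ℕ, W = (∑ l, |c l|).toNat := ⟨_, rfl⟩
  have hW : ∑ l, |c l| ≤ (W : ℤ) := by rw [hW']; exact Int.self_le_toNat _
  refine ⟨B1 + ∑ i, ((2 * g i + 3) * W) ^ (9 * mp (g i)) + 2 +
    ⌈Real.exp (Real.sqrt (128 * CBd g d))⌉₊, fun w hw T₀ B hT₀ hB => ?_⟩
  have hBB1 : B1 ≤ B := by omega
  have hB2 : 2 ≤ B := by omega
  have hB1' : 1 ≤ B := by omega
  have hκB : ∀ i, ((2 * g i + 3) * W) ^ (9 * mp (g i)) ≤ B := by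
    intro i
    have := Finset.single_le_sum (f := fun i => ((2 * g i + 3) * W) ^ (9 * mp (g i)))
      (fun i _ => Nat.zero_le _) (Finset.mem_univ i)
    omega
  have hBR : (2 : ℝ) ≤ B := by exact_mod_cast hB2
  have hlB0 : 0 ≤ Real.log B := Real.log_nonneg (by linarith)
  have hCBd := CBd_nonneg (g := g) (d := d)
  have hL : 128 * CBd g d ≤ Real.log B ^ 2 := by
    have h1 : Real.exp (Real.sqrt (128 * CBd g d)) ≤ B := by
      refine (Nat.le_ceil _).trans ?_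
      exact_mod_cast (by omega : ⌈Real.exp (Real.sqrt (128 * CBd g d))⌉₊ ≤ B)
    have h2 : Real.sqrt (128 * CBd g d) ≤ Real.log B := by
      rw [Real.le_log_iff_exp_le (by linarith)]
      exact h1
    have h3 := pow_le_pow_left₀ (Real.sqrt_nonneg _) h2 2
    rwa [Real.sq_sqrt (by positivity)] at h3
  have hT0 : (2 : ℝ) ≤ T₀ := by exact_mod_cast hT₀
  have hlT : 0 < Real.log T₀ := Real.log_pos (by linarith)
  have hCL := CL_nonneg g d
  obtain ⟨K, hK1, hK2, hK3⟩ := exists_K g i₀ hB1'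
  by_cases hTK : T₀ ≤ K
  swap
  · have : ((bx (Idx g × Fin d) B).filter fun a => ∃ T : ℕ, T₀ ≤ T ∧ B < T ^ 2 ∧
        (∀ i, T ^ 9 ≤ B ^ (2 * g i)) ∧ ∃ β : Bs k, Real.sqrt T * Real.log T ^ 3 <
          |∑ p ∈ PR T, Real.log p * tt b w β p a|) = ∅ := by
      rw [Finset.filter_eq_empty_iff]
      rintro a _ ⟨T, h1, _, h3, _⟩
      have := hK3 T h3
      omega
    rw [this, Finset.card_empty, Nat.cast_zero]
    positivity
  obtain ⟨H, hH1, hHd⟩ : ∃ H : ℕ, 1 ≤ H ∧ ∀ p, p.Prime → p ≤ K → p ∣ H :=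
    ⟨Nat.factorial K, Nat.factorial_pos K, fun p hp hpK => Nat.dvd_factorial hp.pos hpK⟩
  obtain ⟨M, hM⟩ : ∃ M : ℕ, M = 8 * B * H := ⟨_, rfl⟩
  have hM0 : 0 < M := by rw [hM]; positivity
  have : NeZero M := ⟨hM0.ne'⟩
  have hdvd : ∀ p, p.Prime → p ≤ K → p ∣ M := by
    intro p hp hpK
    rw [hM]
    exact Dvd.dvd.mul_left (hHd p hp hpK) _
  have hA : ∀ i N, 1 ≤ N → N ≤ K ^ 4 → ∃ 𝒢 : Finset ℤ[X], 𝒢.card ^ 4 ≤ Cp (g i) ^ 4 * N ∧
      Adm (2 * g i + 2) M (H * W) (mp (g i)) 𝒢 N :=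
    fun i N h1 h2 => adm_exists (hg i) (hK2 i) hB1' (hκB i) hH1 hM h1 h2
  obtain ⟨j0, hj0⟩ : ∃ j0, j0 = Nat.log 2 T₀ := ⟨_, rfl⟩
  have hj1 : 1 ≤ j0 := by
    rw [hj0]; exact Nat.log_pos (by norm_num) hT₀
  have hsub : ((bx (Idx g × Fin d) B).filter fun a => ∃ T : ℕ, T₀ ≤ T ∧ B < T ^ 2 ∧
        (∀ i, T ^ 9 ≤ B ^ (2 * g i)) ∧ ∃ β : Bs k, Real.sqrt T * Real.log T ^ 3 <
          |∑ p ∈ PR T, Real.log p * tt b w β p a|) ⊆
      ((bx (Idx g × Fin d) B).filter fun a => ¬ ∀ i, ND b i a ≠ 0) ∪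
        (Icc j0 (Nat.log 2 K)).biUnion fun j => LV (g := g) b w B K j := by
    intro a ha
    obtain ⟨ha1, T, h1, h2, h3, β, h4⟩ := Finset.mem_filter.1 ha
    rw [Finset.mem_union]
    by_contra hcon
    rw [not_or] at hcon
    obtain ⟨hc1, hc2⟩ := hcon
    have hND : ∀ i, ND b i a ≠ 0 := by
      by_contra h5
      exact hc1 (Finset.mem_filter.2 ⟨ha1, h5⟩)
    have hTK' : T ≤ K := hK3 T h3
    have hlv : a ∉ LV (g := g) b w B K (Nat.log 2 T) := by
      intro h5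
      apply hc2
      rw [Finset.mem_biUnion]
      refine ⟨Nat.log 2 T, ?_, h5⟩
      rw [Finset.mem_Icc, hj0]
      exact ⟨Nat.log_mono_right h1, Nat.log_mono_right hTK'⟩
    have h6 := good_of b hw (hT₀.trans h1) hTK' ha1 hlv (hB1 B hBB1 a ha1 hND T) h2 hB1' hL β
    exact absurd h4 (not_lt.2 h6)
  have h1 : (((bx (Idx g × Fin d) B).filter fun a => ∃ T : ℕ, T₀ ≤ T ∧ B < T ^ 2 ∧
        (∀ i, T ^ 9 ≤ B ^ (2 * g i)) ∧ ∃ β : Bs k, Real.sqrt T * Real.log T ^ 3 <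
          |∑ p ∈ PR T, Real.log p * tt b w β p a|).card : ℝ) ≤
      (((bx (Idx g × Fin d) B).filter fun a => ¬ ∀ i, ND b i a ≠ 0).card : ℝ) +
        ∑ j ∈ Icc j0 (Nat.log 2 K), ((LV (g := g) b w B K j).card : ℝ) := by
    have h2 := (Finset.card_le_card hsub).trans (Finset.card_union_le _ _)
    have h3 := h2.trans (add_le_add le_rfl Finset.card_biUnion_le)
    exact_mod_cast h3
  refine h1.trans ?_
  obtain ⟨X, hX⟩ : ∃ X : ℝ, X = ((bx (Idx g × Fin d) B).card : ℝ) := ⟨_, rfl⟩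
  have hX0 : 0 ≤ X := by rw [hX]; exact Nat.cast_nonneg _
  have hAA : AA (Idx g × Fin d) B = 8 ^ Fintype.card (Idx g × Fin d) * X := by rw [hX]; rfl
  have hcA := cA_nonneg g d
  have h2 : ∑ j ∈ Icc j0 (Nat.log 2 K), ((LV (g := g) b w B K j).card : ℝ) ≤
      8 ^ Fintype.card (Idx g × Fin d) * cA g d * 4 / Real.log T₀ * X := by
    have h3 : ∀ j ∈ Icc j0 (Nat.log 2 K), ((LV (g := g) b w B K j).card : ℝ) ≤
        AA (Idx g × Fin d) B * cA g d * (1 / (j : ℝ) ^ 2) := fun j hj =>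
      card_LV b hc hW hA hM hB1' hH1 hdvd hw (hj1.trans (Finset.mem_Icc.1 hj).1)
    refine (Finset.sum_le_sum h3).trans ?_
    rw [← Finset.mul_sum]
    have h4 := sum_inv_sq j0 (Nat.log 2 K) hj1
    have h5 : (2 : ℝ) / j0 ≤ 4 / Real.log T₀ := by
      have hj0' : (1 : ℝ) ≤ j0 := by exact_mod_cast hj1
      rw [div_le_div_iff₀ (by linarith) hlT]
      have h6 : Real.log T₀ ≤ ((j0 : ℝ) + 1) * Real.log 2 := by
        have h7 : (T₀ : ℝ) ≤ 2 ^ (j0 + 1) := by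
          have := (Nat.lt_pow_succ_log_self (b := 2) (by norm_num) T₀).le
          rw [← hj0] at this
          exact_mod_cast this
        have h8 := Real.log_le_log (by linarith) h7
        rw [Real.log_pow] at h8
        push_cast at h8
        exact h8
      have h7 : Real.log 2 ≤ 1 := by
        have := Real.log_two_lt_d9; linarith
      nlinarith
    have h6 : 0 ≤ AA (Idx g × Fin d) B * cA g d := by
      have := AA_nonneg (Idx g × Fin d) B
      positivity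
    refine (mul_le_mul_of_nonneg_left (h4.trans h5) h6).trans (le_of_eq ?_)
    rw [hAA]
    ring
  have h3 : (((bx (Idx g × Fin d) B).filter fun a => ¬ ∀ i, ND b i a ≠ 0).card : ℝ) ≤
      CBd g d * (∑ i, (g i : ℝ)) / Real.log T₀ * X := by
    have h4 := rare (g := g) b B hB1'
    rw [← hX] at h4
    refine h4.trans ?_
    apply mul_le_mul_of_nonneg_right _ hX0
    have hB0 : (0 : ℝ) < B := by linarith
    rw [div_le_div_iff₀ hB0 hlT, mul_assoc]
    apply mul_le_mul_of_nonneg_left _ hCBd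
    have h5 : T₀ ^ 9 ≤ B ^ (2 * g i₀) := (Nat.pow_le_pow_left hTK 9).trans (hK2 i₀)
    have h6 : (T₀ : ℝ) ^ 9 ≤ (B : ℝ) ^ (2 * g i₀) := by exact_mod_cast h5
    have h7 := Real.log_le_log (by positivity) h6
    rw [Real.log_pow, Real.log_pow] at h7
    have h8 : Real.log B ≤ B := (Real.log_le_sub_one_of_pos hB0).trans (by linarith)
    have h9 : (g i₀ : ℝ) ≤ ∑ i, (g i : ℝ) :=
      Finset.single_le_sum (f := fun i => (g i : ℝ)) (fun i _ => Nat.cast_nonneg _)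
        (Finset.mem_univ i₀)
    have h10 : (0 : ℝ) ≤ g i₀ := Nat.cast_nonneg _
    push_cast at h7
    calc Real.log T₀ ≤ 9 / 2 * Real.log T₀ := by linarith
      _ ≤ g i₀ * Real.log B := by linarith
      _ ≤ (∑ i, (g i : ℝ)) * B := mul_le_mul h9 h8 hlB0 (h10.trans h9)
  refine (add_le_add h3 h2).trans (le_of_eq ?_)
  rw [← hX]
  unfold CL
  ring

end Long

end Pool.Agent.Helper28.TM
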