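import Pool.Agent.Helper28.TM.Key
import Pool.Agent.Helper28.TL.Cnt

set_option autoImplicit false

namespace Pool.Agent.Helper28.TM

open Polynomial Finset
open Pool.Agent.LL (Ann exists_q)
open Pool.Agent.Helper28.TL (exists_root)

/-- The parameters are admissible: one of the polynomials of the finite set annihilates. -/
structure Adm (D M H κ : ℕ) (𝒢 : Finset ℤ[X]) (N : ℕ) : Prop where
  one : 1 ≤ κ
  deg : κ + 2 ≤ D
  prim : ∀ G ∈ 𝒢, G.IsPrimitive ∧ G.natDegree < κ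
  hit : ∀ (𝓡 : Type) [CommRing 𝓡] [Fintype 𝓡] (τ : 𝓡) (θ : ℕ → ℤ), Fintype.card 𝓡 ≤ N →
    (∀ j ≤ D, |θ j| ≤ (H : ℤ)) →
    (∀ G : ℤ[X], aeval τ G = 0 → ∀ i, i + G.natDegree ≤ D →
      (M : ℤ) ∣ ∑ j ∈ range (G.natDegree + 1), G.coeff j * θ (i + j)) → ∃ G ∈ 𝒢, Ann D θ G

/-- The length of the small polynomials. -/
def mp (g : ℕ) : ℕ := (8 * g + 11) / 9

lemma mp_cond {g k : ℕ} (hg : 1 ≤ g) (h1 : 1 ≤ k) (hk : k + 1 ≤ mp g) :
    4 * ((mp g - k) * (k + 1)) ≤ mp g * (2 * g + 2 + 2 - 2 * k) := by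
  obtain ⟨m, hm⟩ : ∃ m, m = mp g := ⟨_, rfl⟩
  rw [← hm] at hk ⊢
  have hm1 : m = (8 * g + 11) / 9 := hm
  obtain ⟨j, hj⟩ : ∃ j, j + k = m := ⟨m - k, by omega⟩
  have e1 : m - k = j := by omega
  obtain ⟨c, hc⟩ : ∃ c, c + 2 * k = 2 * g + 4 := ⟨2 * g + 4 - 2 * k, by omega⟩
  have e2 : 2 * g + 2 + 2 - 2 * k = c := by omega
  rw [e1, e2]
  by_cases h4 : 4 ≤ m
  · have h9 : 9 * m ≤ 8 * g + 11 := by omega
    zify at h9 hc hj h4 ⊢
    nlinarith [sq_nonneg (3 * (m : ℤ) - 4 * k - 2)]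
  · have hg3 : g ≤ 3 := by omega
    have hk3 : k ≤ 2 := by omega
    have e3 : j = (8 * g + 11) / 9 - k := by omega
    have e4 : c = 2 * g + 4 - 2 * k := by omega
    rw [e3, e4, hm1]
    clear e1 e2 hm
    interval_cases g <;> interval_cases k <;> first | omega | norm_num

/-- The existence of the constant. -/
lemma exists_Cp {g : ℕ} (hg : 1 ≤ g) : ∃ C : ℕ, 1 ≤ C ∧ ∀ N W H B : ℕ, 1 ≤ N → 1 ≤ H →
    N ^ 9 * ((2 * g + 3) * W) ^ (9 * mp g) ≤ B ^ (9 * mp g) → 1 ≤ B →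
    ∃ 𝒢 : Finset ℤ[X], 𝒢.card ^ 4 ≤ C ^ 4 * N ∧
      Adm (2 * g + 2) (8 * B * H) (H * W) (mp g) 𝒢 N := by
  classical
  have hmp : mp g = (8 * g + 11) / 9 := rfl
  obtain ⟨C, hC⟩ := key (m := mp g) (D := 4) (L := 2 * g + 2) (by omega) (by omega) (by norm_num)
    (fun k h1 hk => mp_cond hg h1 hk)
  refine ⟨2 * (C + 1), by omega, fun N W H B hN hH hNB hB => ?_⟩
  obtain ⟨q, hq1, hq2, hq3⟩ := exists_q (m := mp g) hN (by omega)
  obtain ⟨𝒢, h1, h2, h3⟩ := hC q hq1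
  refine ⟨insert 1 𝒢, ?_, ?_⟩
  · have e1 : (insert 1 𝒢).card ≤ 𝒢.card + 1 := Finset.card_insert_le _ _
    have e2 : 𝒢.card ^ 4 ≤ (C + 1) ^ 4 * N := by
      calc 𝒢.card ^ 4 ≤ C * q ^ mp g := h1
        _ ≤ (C + 1) ^ 4 * N := by
          apply Nat.mul_le_mul _ hq2
          calc C ≤ C + 1 := Nat.le_succ C
            _ ≤ _ := Nat.le_self_pow (by norm_num) _
    have e3 : (𝒢.card + 1) ^ 4 ≤ 16 * ((C + 1) ^ 4 * N) := by
      rcases Nat.eq_zero_or_pos 𝒢.card with h0 | h0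
      · rw [h0, zero_add, one_pow]
        have : 1 ≤ (C + 1) ^ 4 * N := Nat.mul_pos (Nat.pow_pos (Nat.succ_pos C)) hN
        omega
      · calc (𝒢.card + 1) ^ 4 ≤ (2 * 𝒢.card) ^ 4 := Nat.pow_le_pow_left (by omega) 4
          _ = 16 * 𝒢.card ^ 4 := by ring
          _ ≤ _ := Nat.mul_le_mul_left _ e2
    calc (insert 1 𝒢).card ^ 4 ≤ (𝒢.card + 1) ^ 4 := Nat.pow_le_pow_left e1 4
      _ ≤ 16 * ((C + 1) ^ 4 * N) := e3
      _ = _ := by ring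
  · refine ⟨by omega, by omega, ?_, ?_⟩
    · intro G hG
      rw [Finset.mem_insert] at hG
      rcases hG with rfl | hG
      · exact ⟨isPrimitive_one, by rw [natDegree_one]; omega⟩
      · exact ⟨(h2 G hG).1, (h2 G hG).2.2⟩
    · intro 𝓡 _ _ τ θ hcard hθ hdiv
      by_cases hne : ∃ j ≤ 2 * g + 2, θ j ≠ 0
      · obtain ⟨G, hG, hA⟩ := h3 𝓡 τ θ (H * W) (8 * B * H) (lt_of_le_of_lt hcard hq3) hθ (by
          have e1 : ((2 * g + 3) * W * q) ^ (9 * mp g) ≤ B ^ (9 * mp g) := by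
            calc ((2 * g + 3) * W * q) ^ (9 * mp g) =
                (q ^ mp g) ^ 9 * ((2 * g + 3) * W) ^ (9 * mp g) := by
                  rw [mul_pow, ← pow_mul, mul_comm (mp g) 9]; ring
              _ ≤ N ^ 9 * ((2 * g + 3) * W) ^ (9 * mp g) :=
                  Nat.mul_le_mul_right _ (Nat.pow_le_pow_left hq2 9)
              _ ≤ _ := hNB
          have e2 : (2 * g + 3) * W * q ≤ B := (Nat.pow_le_pow_iff_left (by omega)).1 e1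
          calc (2 * g + 2 + 1) * (q * (H * W)) = (2 * g + 3) * W * q * H := by ring
            _ ≤ B * H := Nat.mul_le_mul_right _ e2
            _ < 8 * B * H := by nlinarith [Nat.mul_pos hB hH]) hne hdiv
        exact ⟨G, Finset.mem_insert_of_mem hG, hA⟩
      · push Not at hne
        refine ⟨1, Finset.mem_insert_self _ _, ?_⟩
        intro i hi
        refine Finset.sum_eq_zero fun j hj => ?_
        rw [Finset.mem_range] at hj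
        rw [hne (i + j) (by omega), mul_zero]

open Classical in
/-- The constant. -/
noncomputable def Cp (g : ℕ) : ℕ := if h : 1 ≤ g then Classical.choose (exists_Cp h) else 1

lemma Cp_spec {g : ℕ} (hg : 1 ≤ g) : 1 ≤ Cp g ∧ ∀ N W H B : ℕ, 1 ≤ N → 1 ≤ H →
    N ^ 9 * ((2 * g + 3) * W) ^ (9 * mp g) ≤ B ^ (9 * mp g) → 1 ≤ B →
    ∃ 𝒢 : Finset ℤ[X], 𝒢.card ^ 4 ≤ Cp g ^ 4 * N ∧
      Adm (2 * g + 2) (8 * B * H) (H * W) (mp g) 𝒢 N := by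
  unfold Cp
  rw [dif_pos hg]
  exact Classical.choose_spec (exists_Cp hg)

lemma adm_exists {g K B H M W : ℕ} (hg : 1 ≤ g) (hK : K ^ 9 ≤ B ^ (2 * g))
    (hB1 : 1 ≤ B) (hB : ((2 * g + 3) * W) ^ (9 * mp g) ≤ B) (hH : 1 ≤ H) (hM : M = 8 * B * H)
    {N : ℕ} (h1 : 1 ≤ N) (hN : N ≤ K ^ 4) :
    ∃ 𝒢 : Finset ℤ[X], 𝒢.card ^ 4 ≤ Cp g ^ 4 * N ∧ Adm (2 * g + 2) M (H * W) (mp g) 𝒢 N := by
  have hmp : mp g = (8 * g + 11) / 9 := rfl
  obtain ⟨𝒢, a1, a2⟩ := (Cp_spec hg).2 N W H B h1 hH (by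
    calc N ^ 9 * ((2 * g + 3) * W) ^ (9 * mp g) ≤ (K ^ 4) ^ 9 * B :=
          Nat.mul_le_mul (Nat.pow_le_pow_left hN 9) hB
      _ = (K ^ 9) ^ 4 * B := by rw [← pow_mul, ← pow_mul]
      _ ≤ (B ^ (2 * g)) ^ 4 * B := Nat.mul_le_mul_right _ (Nat.pow_le_pow_left hK 4)
      _ = B ^ (8 * g + 1) := by rw [← pow_mul, pow_succ]; ring
      _ ≤ B ^ (9 * mp g) := Nat.pow_le_pow_right hB1 (by omega)) hB1
  rw [hM]
  exact ⟨𝒢, a1, a2⟩

/-- The largest length. -/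
lemma exists_K {k : ℕ} (g : Fin k → ℕ) (i₀ : Fin k) {B : ℕ} (hB : 1 ≤ B) :
    ∃ K : ℕ, 1 ≤ K ∧ (∀ i, K ^ 9 ≤ B ^ (2 * g i)) ∧
      ∀ T : ℕ, (∀ i, T ^ 9 ≤ B ^ (2 * g i)) → T ≤ K := by
  classical
  obtain ⟨i₁, _, hi₁⟩ := Finset.exists_min_image (Finset.univ : Finset (Fin k)) g
    ⟨i₀, Finset.mem_univ _⟩
  obtain ⟨K, h1, h2, h3⟩ := exists_root (N := B ^ (2 * g i₁)) (m := 9) (Nat.one_le_pow _ _ hB)
    (by norm_num)
  refine ⟨K, h1, fun i => ?_, fun T hT => ?_⟩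
  · have := hi₁ i (Finset.mem_univ _)
    exact h2.trans (Nat.pow_le_pow_right hB (by omega))
  · have h4 := (hT i₁).trans_lt h3
    have h5 := (Nat.pow_lt_pow_iff_left (n := 9) (by norm_num)).1 h4
    omega

end Pool.Agent.Helper28.TM
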