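import Pool.Agent.Helper28.TM.Mts
import Pool.Agent.Helper28.TL.VV

set_option autoImplicit false

namespace Pool.Agent.Helper28.TM

open Polynomial Finset
open Pool.Agent.Helper28.TC (WW WW_nonneg qc qc_abs qc_sq qc_zero ringCharK LP blk pl up cc cc_abs WF
  XK mem_XK Bs XB rB rB_abs rB_none rB_inl rB_inr XB_none XB_inl XB_inr GG BA Cb Cb_nonneg SF ZF
  natDegree_pl cardK)
open Pool.Agent.Helper28.TC.N (Idx f1)
open Pool.Agent.Helper28.TL (kap LX LX_kap LX_kap_ne rdM Itp itp_inj itp_unit itp_pair sum_terms ZZ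
  ZZ_nonneg SA ZA BB SA_sq ZA_nonneg ZA_le abs_mul_le_one sqrt_sqrt_mul sqrt_sqrt_sq WG v1 er Ce
  Ce_nonneg pair_aux)

section VMts

variable {R : Type} [CommRing R] {k d : ℕ} {g : Fin k → ℕ} {M H W p q K : ℕ} [NeZero M]
  [Fact p.Prime] [Fact q.Prime] (b : Fin d → R) (c : Fin d → ℤ) (hc : ∑ l, (c l : R) * b l = 1)
  (hW : ∑ l, |c l| ≤ (W : ℤ))
  (φ : R →+* ZMod p) (φ' : R →+* ZMod q) (h : p ∣ M) (h' : q ∣ M) {κ C : Fin k → ℕ}
  (hA : ∀ i N, 1 ≤ N → N ≤ K ^ 4 → ∃ 𝒢 : Finset ℤ[X], 𝒢.card ^ 4 ≤ C i ^ 4 * N ∧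
    Adm (2 * g i + 2) M (H * W) (κ i) 𝒢 N)

include hc hW hA in
lemma v1_pair (hpq : p ≠ q) (hpK : p ≤ K) (hqK : q ≤ K) (β : Bs k) :
    |∑ a : Idx g × Fin d → ZMod M, WW H a * (v1 β p (rdM b φ h a) * v1 β q (rdM b φ' h' a))| ≤
      ZZ (Idx g × Fin d) M H *
        ((2 * SC κ C / Real.sqrt p) * (2 * SC κ C / Real.sqrt q)) := by
  have hp0 : (0 : ℝ) < p := by exact_mod_cast (Fact.out : p.Prime).pos
  have hq0 : (0 : ℝ) < q := by exact_mod_cast (Fact.out : q.Prime).pos
  have hSC := one_le_SC κ C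
  have hZ : 0 ≤ ZZ (Idx g × Fin d) M H := ZZ_nonneg
  have hR : 0 ≤ ZZ (Idx g × Fin d) M H *
        ((2 * SC κ C / Real.sqrt p) * (2 * SC κ C / Real.sqrt q)) := by positivity
  rcases β with _ | i | ⟨i, j⟩
  · have e1 : ∀ a : Idx g × Fin d → ZMod M,
        WW H a * (v1 none p (rdM b φ h a) * v1 none q (rdM b φ' h' a)) = 0 := by
      intro a
      change WW H a * ((0 : ℝ) * 0) = 0
      ring
    rw [Finset.sum_congr rfl fun a _ => e1 a, Finset.sum_const_zero, abs_zero]
    exact hR
  · by_cases hp : p = 2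
    · have e1 : ∀ a : Idx g × Fin d → ZMod M, WW H a * (v1 (some (Sum.inl i)) p (rdM b φ h a) *
          v1 (some (Sum.inl i)) q (rdM b φ' h' a)) = 0 := by
        intro a
        have : v1 (some (Sum.inl i)) p (rdM b φ h a) = 0 := if_pos hp
        rw [this, zero_mul, mul_zero]
      rw [Finset.sum_congr rfl fun a _ => e1 a, Finset.sum_const_zero, abs_zero]
      exact hR
    by_cases hq : q = 2
    · have e1 : ∀ a : Idx g × Fin d → ZMod M, WW H a * (v1 (some (Sum.inl i)) p (rdM b φ h a) *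
          v1 (some (Sum.inl i)) q (rdM b φ' h' a)) = 0 := by
        intro a
        have : v1 (some (Sum.inl i)) q (rdM b φ' h' a) = 0 := if_pos hq
        rw [this, mul_zero, mul_zero]
      rw [Finset.sum_congr rfl fun a _ => e1 a, Finset.sum_const_zero, abs_zero]
      exact hR
    let _ : Fintype (GaloisField p 2) := Fintype.ofFinite _
    let _ : Fintype (GaloisField q 2) := Fintype.ofFinite _
    have h1 := mtW (H := H) b c hc hW φ φ' h h' hA (GaloisField p 2) (GaloisField q 2) hpq hp hq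
      (cardK p) (cardK q) hpK hqK (i := i)
    have e1 : ∀ a : Idx g × Fin d → ZMod M, WW H a * (v1 (some (Sum.inl i)) p (rdM b φ h a) *
        v1 (some (Sum.inl i)) q (rdM b φ' h' a)) = (2 / (p : ℝ)) * (2 / (q : ℝ)) * (WW H a *
        (WF (GaloisField p 2) i (rdM b φ h a) * WF (GaloisField q 2) i (rdM b φ' h' a))) := by
      intro a
      have e2 : v1 (some (Sum.inl i)) p (rdM b φ h a) =
          - (2 * WF (GaloisField p 2) i (rdM b φ h a) / p) := if_neg hp
      have e3 : v1 (some (Sum.inl i)) q (rdM b φ' h' a) =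
          - (2 * WF (GaloisField q 2) i (rdM b φ' h' a) / q) := if_neg hq
      rw [e2, e3]
      field_simp
    rw [Finset.sum_congr rfl fun a _ => e1 a, ← Finset.mul_sum]
    exact pair_aux hp0 hq0 rfl rfl hZ h1
  · by_cases hp : p = 2
    · have e1 : ∀ a : Idx g × Fin d → ZMod M,
          WW H a * (v1 (some (Sum.inr (i, j))) p (rdM b φ h a) *
          v1 (some (Sum.inr (i, j))) q (rdM b φ' h' a)) = 0 := by
        intro a
        have : v1 (some (Sum.inr (i, j))) p (rdM b φ h a) = 0 := if_pos hp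
        rw [this, zero_mul, mul_zero]
      rw [Finset.sum_congr rfl fun a _ => e1 a, Finset.sum_const_zero, abs_zero]
      exact hR
    by_cases hq : q = 2
    · have e1 : ∀ a : Idx g × Fin d → ZMod M,
          WW H a * (v1 (some (Sum.inr (i, j))) p (rdM b φ h a) *
          v1 (some (Sum.inr (i, j))) q (rdM b φ' h' a)) = 0 := by
        intro a
        have : v1 (some (Sum.inr (i, j))) q (rdM b φ' h' a) = 0 := if_pos hq
        rw [this, mul_zero, mul_zero]
      rw [Finset.sum_congr rfl fun a _ => e1 a, Finset.sum_const_zero, abs_zero]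
      exact hR
    by_cases hij : i = j
    · have h1 := mtB (H := H) b c hc hW φ φ' h h' hA hpq hp hq hpK hqK (i := i)
      have e1 : ∀ a : Idx g × Fin d → ZMod M,
          WW H a * (v1 (some (Sum.inr (i, j))) p (rdM b φ h a) *
          v1 (some (Sum.inr (i, j))) q (rdM b φ' h' a)) =
          (2 / (p : ℝ)) * (2 / (q : ℝ)) * (WW H a *
          (BB i (rdM b φ h a) * BB i (rdM b φ' h' a))) := by
        intro a
        have e2 : v1 (some (Sum.inr (i, j))) p (rdM b φ h a) =
            2 * BB i (rdM b φ h a) / p := (if_neg hp).trans (if_pos hij)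
        have e3 : v1 (some (Sum.inr (i, j))) q (rdM b φ' h' a) =
            2 * BB i (rdM b φ' h' a) / q := (if_neg hq).trans (if_pos hij)
        rw [e2, e3]
        field_simp
      rw [Finset.sum_congr rfl fun a _ => e1 a, ← Finset.mul_sum]
      exact pair_aux hp0 hq0 rfl rfl hZ h1
    · have h1 := mtS (H := H) b c hc hW φ φ' h h' hA hpq hp hq hpK hqK (i := i) (j := j)
        (fun h => hij h.symm)
      have e1 : ∀ a : Idx g × Fin d → ZMod M,
          WW H a * (v1 (some (Sum.inr (i, j))) p (rdM b φ h a) *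
          v1 (some (Sum.inr (i, j))) q (rdM b φ' h' a)) =
          (2 / (p : ℝ)) * (2 / (q : ℝ)) * (WW H a *
          ((SA i (rdM b φ h a) * SA j (rdM b φ h a)) *
            (SA i (rdM b φ' h' a) * SA j (rdM b φ' h' a)))) := by
        intro a
        have e2 : v1 (some (Sum.inr (i, j))) p (rdM b φ h a) =
            2 * (SA i (rdM b φ h a) * SA j (rdM b φ h a)) / p := (if_neg hp).trans (if_neg hij)
        have e3 : v1 (some (Sum.inr (i, j))) q (rdM b φ' h' a) =
            2 * (SA i (rdM b φ' h' a) * SA j (rdM b φ' h' a)) / q := (if_neg hq).trans (if_neg hij)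
        rw [e2, e3]
        field_simp
      rw [Finset.sum_congr rfl fun a _ => e1 a, ← Finset.mul_sum]
      exact pair_aux hp0 hq0 rfl rfl hZ h1

include hc hW hA in
lemma v1_sq (hpK : p ≤ K) (β : Bs k) :
    ∑ a : Idx g × Fin d → ZMod M, WW H a * v1 β p (rdM b φ h a) ^ 2 ≤
      ZZ (Idx g × Fin d) M H * (88 * SC κ C) := by
  have hp0 : (0 : ℝ) < p := by exact_mod_cast (Fact.out : p.Prime).pos
  have hSC := one_le_SC κ C
  have hZ : 0 ≤ ZZ (Idx g × Fin d) M H := ZZ_nonneg
  have hR : 0 ≤ ZZ (Idx g × Fin d) M H * (88 * SC κ C) := by positivity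
  rcases β with _ | i | ⟨i, j⟩
  · have e1 : ∀ a : Idx g × Fin d → ZMod M,
        WW H a * v1 none p (rdM b φ h a) ^ 2 = 0 := by
      intro a
      change WW H a * (0 : ℝ) ^ 2 = 0
      ring
    rw [Finset.sum_congr rfl fun a _ => e1 a, Finset.sum_const_zero]
    exact hR
  · by_cases hp : p = 2
    · have e1 : ∀ a : Idx g × Fin d → ZMod M,
          WW H a * v1 (some (Sum.inl i)) p (rdM b φ h a) ^ 2 = 0 := by
        intro a
        have : v1 (some (Sum.inl i)) p (rdM b φ h a) = 0 := if_pos hp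
        rw [this]
        ring
      rw [Finset.sum_congr rfl fun a _ => e1 a, Finset.sum_const_zero]
      exact hR
    let _ : Fintype (GaloisField p 2) := Fintype.ofFinite _
    have h1 := mtWW (H := H) b c hc hW φ h hA (GaloisField p 2) hp (cardK p) hpK (i := i)
    have e1 : ∀ a : Idx g × Fin d → ZMod M,
        WW H a * v1 (some (Sum.inl i)) p (rdM b φ h a) ^ 2 =
        (4 / (p : ℝ) ^ 2) * (WW H a * WF (GaloisField p 2) i (rdM b φ h a) ^ 2) := by
      intro a
      have e2 : v1 (some (Sum.inl i)) p (rdM b φ h a) =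
          - (2 * WF (GaloisField p 2) i (rdM b φ h a) / p) := if_neg hp
      rw [e2]
      field_simp
      ring
    rw [Finset.sum_congr rfl fun a _ => e1 a, ← Finset.mul_sum]
    refine (mul_le_mul_of_nonneg_left h1 (by positivity)).trans ?_
    have e3 : 4 / (p : ℝ) ^ 2 * (ZZ (Idx g × Fin d) M H * (10 * SC κ C * (p : ℝ) ^ 2)) =
        ZZ (Idx g × Fin d) M H * (40 * SC κ C) := by field_simp; ring
    rw [e3]
    apply mul_le_mul_of_nonneg_left _ hZ
    linarith
  · by_cases hp : p = 2
    · have e1 : ∀ a : Idx g × Fin d → ZMod M,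
          WW H a * v1 (some (Sum.inr (i, j))) p (rdM b φ h a) ^ 2 = 0 := by
        intro a
        have : v1 (some (Sum.inr (i, j))) p (rdM b φ h a) = 0 := if_pos hp
        rw [this]
        ring
      rw [Finset.sum_congr rfl fun a _ => e1 a, Finset.sum_const_zero]
      exact hR
    by_cases hij : i = j
    · have h1 := mtBB (H := H) b c hc hW φ h hA hp hpK (i := i)
      have e1 : ∀ a : Idx g × Fin d → ZMod M,
          WW H a * v1 (some (Sum.inr (i, j))) p (rdM b φ h a) ^ 2 =
          (4 / (p : ℝ) ^ 2) * (WW H a * BB i (rdM b φ h a) ^ 2) := by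
        intro a
        have e2 : v1 (some (Sum.inr (i, j))) p (rdM b φ h a) =
            2 * BB i (rdM b φ h a) / p := (if_neg hp).trans (if_pos hij)
        rw [e2]
        field_simp
        ring
      rw [Finset.sum_congr rfl fun a _ => e1 a, ← Finset.mul_sum]
      refine (mul_le_mul_of_nonneg_left h1 (by positivity)).trans ?_
      have e3 : 4 / (p : ℝ) ^ 2 * (ZZ (Idx g × Fin d) M H * (10 * SC κ C * (p : ℝ) ^ 2)) =
          ZZ (Idx g × Fin d) M H * (40 * SC κ C) := by field_simp; ring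
      rw [e3]
      apply mul_le_mul_of_nonneg_left _ hZ
      linarith
    · have h1 := mtS4 (H := H) b c hc hW φ h hA hp hpK (i := i)
      have h2 := mtS4 (H := H) b c hc hW φ h hA hp hpK (i := j)
      have e1 : ∀ a : Idx g × Fin d → ZMod M,
          WW H a * v1 (some (Sum.inr (i, j))) p (rdM b φ h a) ^ 2 ≤
          (2 / (p : ℝ) ^ 2) * (WW H a * SA i (rdM b φ h a) ^ 4) +
            (2 / (p : ℝ) ^ 2) * (WW H a * SA j (rdM b φ h a) ^ 4) := by
        intro a
        have e2 : v1 (some (Sum.inr (i, j))) p (rdM b φ h a) =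
            2 * (SA i (rdM b φ h a) * SA j (rdM b φ h a)) / p := (if_neg hp).trans (if_neg hij)
        rw [e2]
        have e3 : (2 * (SA i (rdM b φ h a) * SA j (rdM b φ h a)) / p) ^ 2 ≤
            (2 / (p : ℝ) ^ 2) * (SA i (rdM b φ h a) ^ 4 + SA j (rdM b φ h a) ^ 4) := by
          have e4 : (2 * (SA i (rdM b φ h a) * SA j (rdM b φ h a)) / p) ^ 2 =
              (2 / (p : ℝ) ^ 2) * (2 * (SA i (rdM b φ h a) ^ 2 * SA j (rdM b φ h a) ^ 2)) := by
            field_simp
          rw [e4]
          apply mul_le_mul_of_nonneg_left _ (by positivity)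
          nlinarith [sq_nonneg (SA i (rdM b φ h a) ^ 2 - SA j (rdM b φ h a) ^ 2)]
        have e5 := mul_le_mul_of_nonneg_left e3 (WW_nonneg H a)
        linarith
      refine (Finset.sum_le_sum fun a _ => e1 a).trans ?_
      rw [Finset.sum_add_distrib, ← Finset.mul_sum, ← Finset.mul_sum, ← mul_add]
      refine (mul_le_mul_of_nonneg_left (add_le_add h1 h2) (by positivity)).trans (le_of_eq ?_)
      field_simp
      ring

end VMts

end Pool.Agent.Helper28.TM
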